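import Pool.Agent.W5h90.RD.Prod

/-!
# Factors of rank one and two
-/

set_option autoImplicit false
set_option linter.unusedSectionVars false

namespace Pool.Agent.W5h90.RD

open Pool.Agent.W4h4.NR
open Finset Filter Topology
open Pool.Agent.W594.SYZ2 Pool.Agent.W594.SYZ2.TQ Pool.Agent.TH735.AQ Pool.Agent.X324.CF
open Pool.Agent.Y167 (cone cone_add cone_smul cone_le cone_mono cone_sum mem_cone_self
  zero_mem_cone cone_image cone_ind cone_of_scaled mem_cone_of_sum Rel Pol Cp CData IsFace AffGrp)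
open Pool.Agent.W5h11 (CQ.lin_ext CQ.extH CQ.extH_rv CQ.Proj CQ.spanF CQ.FacCov CQ.Geo CQ.FacAut
  CQ.extR CQ.extR_rv CQ.Bot CQ.closedF CQ.inv_bot CQ.fac_one CQ.fac_two CQ.spanF_fix CQ.mem_spanF)

variable {V R : Type*} [NormedAddCommGroup V] [NormedSpace ℂ V] [FiniteDimensional ℂ V]
  [CommRing R] [IsDomain R] [Algebra ℂ R] {ρ m : ℕ}
  {𝒜 : Cl ρ → Submodule ℂ R} [GradedAlgebra 𝒜] {u : Cl ρ} {Γ : Grp V R} {ι : Type*}
  {Δ : EffDiv 𝒜 Γ ι} {pr : Fin m → Cl ρ →+ Cl ρ} {pf : Fin m → Cl ρ → Cl ρ}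

theorem semiS_nonzero (hF : IsVarietyS 𝒜 u) {β : Cl ρ} (hβ : SemiampleF 𝒜 u β) :
    ∃ k : ℕ, 0 < k ∧ ∃ r ∈ 𝒜 (k • β), r ≠ 0 := by
  obtain ⟨k, hk, h1⟩ := hβ
  obtain ⟨p, hp⟩ := hF.point
  obtain ⟨r, hr, hr0⟩ := h1 p hp
  exact ⟨k, hk, r, hr, fun h => hr0 (by rw [h, map_zero])⟩

theorem geoS (hF : IsVarietyS 𝒜 u) (hP : PseffPointed 𝒜) :
    CQ.Geo 𝒜 u {β | SemiampleF 𝒜 u β} where
  gens := hF.base.gens
  amp := fun β => by
    obtain ⟨m, hm⟩ := hF.ample β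
    exact ⟨m, 1, one_pos, by rw [one_smul]; exact hm⟩
  eff := fun β hβ => semiS_nonzero hF hβ
  degree := by
    obtain ⟨z, hz⟩ := exists_int_form (K := pseff 𝒜) isClosed_closure (subset_closure hull_zero)
      (fun a ha b hb => closure_hull_add ha hb) (fun t ht a ha => closure_hull_smul ht ha)
      (fun x h1 h2 => hP x h1 h2)
    let d : Cl ρ →+ ℤ := AddMonoidHom.mk' (fun β => ∑ i, z i * β i) fun a b => by
      rw [← Finset.sum_add_distrib]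
      exact Finset.sum_congr rfl fun i _ => mul_add _ _ _
    refine ⟨d, 1, one_pos, fun β hβ i => ?_⟩
    have h1 := hz (rv β) (subset_closure (hull_mem ⟨β, hβ, rfl⟩))
    have h2 : dot (rv z) (rv β) = ((d β : ℤ) : ℝ) := by
      rw [dot_int]
      rfl
    rw [one_mul, ← h2]
    exact (norm_le_pi_norm (rv β) i).trans h1

/-- The automorphisms of `R` which define automorphisms of `F` over `S` preserving `Δ`. -/
def autB (u : Cl ρ) (Δ : EffDiv 𝒜 Γ ι) : Subgroup (R ≃ₐ[ℂ] R) :=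
  (HS u Δ).map ((MonoidHom.fst (R ≃ₐ[ℂ] R) (Cl ρ ≃+ Cl ρ)).comp (GF 𝒜 u).subtype)

theorem facAut_iff (hF : IsVarietyS 𝒜 u) {p : Cl ρ →+ Cl ρ} {ψ : R ≃ₐ[ℂ] R}
    {σ : Cl ρ ≃+ Cl ρ} : IsFactorAut u Δ p ψ σ ↔
      CQ.FacAut 𝒜 {β | SemiampleF 𝒜 u β} (autB u Δ) p ψ σ := by
  constructor
  · intro h
    refine ⟨fun β r hr => (h.aut.1.autF.induces β r).1 hr, ?_, fun β => ⟨fun hβ => ?_, fun hβ => ?_⟩,
      fun β hβ => h.other β fun l => by rw [hβ]; rfl, fun β => h.self β _ rfl⟩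
    · exact ⟨⟨(ψ, σ), h.aut.1.autF⟩, HS_of_aut h.aut, rfl⟩
    · exact Semi_act h.aut.1.autF hβ
    · have h1 := Semi_act h.aut.1.autF.inv hβ
      have h2 : σ⁻¹ (σ β) = β := σ.symm_apply_apply β
      rwa [h2] at h1
  · intro h
    obtain ⟨g, hg, hgψ⟩ := h.mem
    have h1 : g.1.1 = ψ := hgψ
    have h2 : g.1.2 = σ := sigmaS_unique hF (ψ := ψ) (fun β r hr => by
      rw [← h1]
      exact (g.2.induces β r).1 hr) h.induces
    have h3 := aut_of_HS hg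
    rw [h1, h2] at h3
    exact ⟨h3, fun β β' e => by rw [← e]; exact h.self β, fun β hβ => h.other β (funext hβ)⟩

theorem act_eq_extR (σ : Cl ρ ≃+ Cl ρ) (b : Fin ρ → ℝ) : act σ b = CQ.extR σ b := by
  have h1 : actL σ = CQ.extR σ := CQ.lin_ext fun β => by
    rw [actL_apply, act_rv, CQ.extR_rv]
  exact LinearMap.congr_fun h1 b

theorem IsFactorAut.inv (hF : IsVarietyS 𝒜 u) (P : CQ.Proj pr) {i : Fin m} {ψ : R ≃ₐ[ℂ] R}
    {σ : Cl ρ ≃+ Cl ρ} (h : IsFactorAut u Δ (pr i) ψ σ) :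
    IsFactorAut u Δ (pr i) ψ⁻¹ σ⁻¹ := by
  have h1 := (facAut_iff hF).1 h
  exact (facAut_iff hF).2 (h1.symm P)

theorem conj_of_cov (hF : IsVarietyS 𝒜 u) (hP : PseffPointed 𝒜) (h : IsProduct 𝒜 fun i => ⇑(pr i)) (i : Fin m)
    (hc : CQ.FacCov V 𝒜 {β | SemiampleF 𝒜 u β} (autB u Δ) (pr i)) : FactorConj u Δ (pr i) := by
  classical
  have G := geoS hF hP
  obtain ⟨S, hS, hS2⟩ := hc
  have hcl : ∀ b : Fin ρ → ℝ, b ∈ CQ.closedF 𝒜 (CQ.Bot V R) {β | SemiampleF 𝒜 u β} →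
      b ∈ nefCl 𝒜 u := by
    intro b hb
    refine closure_mono (hull_le ?_) hb
    rintro _ ⟨β, hβ, -, rfl⟩
    exact hull_mem ⟨β, hβ, rfl⟩
  have hef : ∀ b : Fin ρ → ℝ, b ∈ Pool.Agent.W5h11.CQ.effF 𝒜 (CQ.Bot V R) → b ∈ effCl 𝒜 := by
    intro b hb
    refine hull_le ?_ hb
    rintro _ ⟨β, hβ, -, rfl⟩
    exact hull_mem ⟨β, hβ, rfl⟩
  refine ⟨S.image fun β => vec (pr i β), fun t ht => ?_, fun b hb => ?_⟩
  · obtain ⟨β, hβ, rfl⟩ := Finset.mem_image.1 ht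
    refine ⟨⟨_, rfl⟩, ?_⟩
    have h1 : CQ.extH (pr i) (vec β) = vec (pr i β) := CQ.extH_rv _ _
    rw [← h1]
    exact facCone_mem h i ⟨hcl _ (hS β hβ).1, hef _ (hS β hβ).2⟩
  · have hfix := facCone_fix h i hb
    have hb1 : b ∈ CQ.closedF 𝒜 (CQ.Bot V R) {β | SemiampleF 𝒜 u β} ∩
        Pool.Agent.W5h11.CQ.effF 𝒜 (CQ.Bot V R) := by
      constructor
      · refine closure_mono (hull_le ?_) hb.1
        rintro _ ⟨β, hβ, rfl⟩
        exact hull_mem ⟨pr i β, hβ, CQ.inv_bot G _, rfl⟩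
      · refine hull_le ?_ hb.2
        rintro _ ⟨β, hβ, rfl⟩
        exact hull_mem ⟨pr i β, hβ, CQ.inv_bot G _, rfl⟩
    obtain ⟨ψ, σ, hA, h1⟩ := hS2 b hb1 (by rw [← hfix]; exact CQ.mem_spanF _ _)
    have hA' := (facAut_iff hF).2 hA
    refine ⟨ψ⁻¹, σ⁻¹, hA'.inv hF h.proj, act σ b, ?_, (act_symm' σ b).symm⟩
    have h2 : act σ b = CQ.extH (pr i) (CQ.extR σ b) := by
      rw [← act_eq_extR, ← hfix, act_self hA']
    rw [h2]
    refine cone_ind (p := fun x => CQ.extH (pr i) x ∈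
      cone (S.image fun β => vec (pr i β))) ?_ ?_ ?_ ?_ h1
    · rw [map_zero]; exact zero_mem_cone _
    · intro x y hx hy
      rw [map_add]
      exact cone_add hx hy
    · intro c x hc hx
      rw [map_smul]
      exact cone_smul hx hc
    · intro x hx
      obtain ⟨β, hβ, rfl⟩ := Finset.mem_image.1 hx
      rw [CQ.extH_rv]
      exact mem_cone_self (Finset.mem_image_of_mem _ hβ)

/-- The cone conjecture for factors of rank one and two. -/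
theorem conj_small (hF : IsVarietyS 𝒜 u) (hP : PseffPointed 𝒜) (h' : IsProduct 𝒜 pf) (i : Fin m)
    (hs' : FactorSmall u Δ (pf i)) : FactorConj u Δ (pf i) := by
  obtain ⟨pr, rfl⟩ : ∃ pr : Fin m → Cl ρ →+ Cl ρ, pf = fun i => ⇑(pr i) := ⟨homs h', rfl⟩
  have h : IsProduct 𝒜 fun i => ⇑(pr i) := h'
  have hs : FactorSmall u Δ (pr i) := hs'
  have G := geoS hF hP
  obtain ⟨β₁, h1', h2⟩ := hs
  have h1 : ∀ β, ∃ a b c : ℤ, a ≠ 0 ∧ a • pr i β = b • pr i u + c • pr i β₁ := by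
    intro β
    obtain ⟨a, b, c, ha, e⟩ := h1' β
    exact ⟨a, b, c, ha, funext fun l => e l⟩
  refine conj_of_cov hF hP h i ?_
  have hpT : ∀ β ∈ {β | SemiampleF 𝒜 u β}, pr i β ∈ {β | SemiampleF 𝒜 u β} :=
    fun β hβ => prodS_semi h i hβ
  rcases h2 with h2 | ⟨ψ, σ, β, hA, hne⟩
  · exact CQ.fac_one h.proj i G hpT (fun β hβ => prodS_eff h i hβ) (funext h2) h1
  · exact CQ.fac_two h.proj i G hpT (fun β hβ => prodS_eff h i hβ) h1 ((facAut_iff hF).1 hA)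
      ⟨β, hne⟩

end Pool.Agent.W5h90.RD
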