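import Pool.Agent.W4h4.NR.DefsF

/-!
# Relative descent of the nef cone conjecture: definitions

`F` is a normal `ℚ`-factorial variety with free class group `Cl(F) = ℤ^ρ`, which is projective over an
arbitrary affine variety `S`. It is given by the ring `R = ⨁ H⁰(F, O_F(β))`, `β ∈ Cl(F)`, and an ample
class `u`, as in `Pool.Agent.W4h4.NR.Defs`; the piece of degree `0` is the ring of the functions on `F`,
and `S` is its spectrum. `X = (A × F) / G` is given by the group `Γ` of pairs, see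
`Pool.Agent.X324.CF.Defs`, and is considered over `Z = (A'' × S) / G`, where `A → A''` is given by the
linear map `π : V → W`.
-/

set_option autoImplicit false

namespace Pool.Agent.W5h90.RD

open Pool.Agent.W594.SYZ2 Pool.Agent.TH735.AQ Pool.Agent.X324.CF Pool.Agent.W4h4.NR
open Pool.Agent.Y167 (AffGrp cone)
open Pool.Agent.Y167.CC (LinGrp Preserves)

section F

variable {ρ : ℕ} {R : Type*} [CommRing R] [Algebra ℂ R] (𝒜 : Cl ρ → Submodule ℂ R)

/-- The cone `Nef(F/S)`: the closed convex cone spanned by the semiample classes. -/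
def nefS (u : Cl ρ) : Set (Fin ρ → ℝ) := closure (coneHull {b | ∃ β, SemiampleF 𝒜 u β ∧ b = vec β})

/-- The properties of the variety `F`, projective over the affine variety `S`, with the ample class `u`
which are used: `F` is not empty; the classes of the effective divisors generate `Cl(F)`; every class
becomes semiample when a multiple of `u` is added; the cone `Nef(F/S)` contains no line, that is, a real
class which is numerically trivial over `S` is zero. There is no condition on the effective divisors: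
`F → S` may be birational, and it may have reducible fibres. -/
structure IsVarietyS (u : Cl ρ) : Prop where
  point : ∃ p : R →ₐ[ℂ] ℂ, Semistable 𝒜 u p
  sections : ∀ β : Cl ρ, ∃ m : ℕ, (∃ r ∈ 𝒜 (β + m • u), r ≠ 0) ∧ ∃ r ∈ 𝒜 (m • u), r ≠ 0
  ample : ∀ β : Cl ρ, ∃ m : ℕ, SemiampleF 𝒜 u (β + m • u)
  numerical : ∀ b, b ∈ nefS 𝒜 u → -b ∈ nefS 𝒜 u → b = 0

/-- The pseudoeffective cone of `F/S` contains no line. -/
def PseffPointed : Prop := ∀ b, b ∈ pseff 𝒜 → -b ∈ pseff 𝒜 → b = 0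

/-- `c` is an invertible function on `S`. -/
def IsUnitS (c : R) : Prop := c ∈ 𝒜 0 ∧ IsUnit c

end F

section Aut

variable {V W E R : Type*} [NormedAddCommGroup V] [NormedSpace ℂ V]
  [NormedAddCommGroup W] [NormedSpace ℂ W] [NormedAddCommGroup E] [NormedSpace ℂ E]
  [CommRing R] [Algebra ℂ R] {ρ : ℕ}

/-- The automorphism `ψ` of `R` defines an automorphism of `F` **over `S`**: it permutes the homogeneous
pieces by `σ`, it preserves the set of the semistable points of the spectrum of `R`, and it is the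
identity on the functions on `S`. It acts on `Cl(F)` by `σ`. -/
structure IsAutS (𝒜 : Cl ρ → Submodule ℂ R) (u : Cl ρ) (ψ : R ≃ₐ[ℂ] R) (σ : Cl ρ ≃+ Cl ρ) :
    Prop where
  induces : ∀ β r, r ∈ 𝒜 β ↔ ψ r ∈ 𝒜 (σ β)
  stable : ∀ p : R →ₐ[ℂ] ℂ, Semistable 𝒜 u p ↔ Semistable 𝒜 u (p.comp (ψ : R →ₐ[ℂ] R))
  overS : ∀ r ∈ 𝒜 0, ψ r = r

/-- The automorphism of `V × F` given by `f` and `ψ` maps the divisors of all the sections `s i` with
`r i ≠ 0` to themselves: `s i (f v)` and `ψ (s i v)` differ by an invertible function on `V × S`. (The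
invertible holomorphic functions on `V` with values in the ring of the functions on `S` are the
products of a function on `V` and an invertible function on `S`.) -/
def FixesS {𝒜 : Cl ρ → Submodule ℂ R} {Γ : Grp V R} {ι : Type*} (Δ : EffDiv 𝒜 Γ ι)
    (f : V → V) (ψ : R ≃ₐ[ℂ] R) : Prop :=
  ∀ i, Δ.r i ≠ 0 → ∃ (h : V → ℂ) (c : R), Differentiable ℂ h ∧ (∀ v, h v ≠ 0) ∧ IsUnitS 𝒜 c ∧
    ∀ v, Δ.s i (f v) = h v • (c * ψ (Δ.s i v))

/-- `ψ` defines an automorphism of `F` over `S` which preserves `Δ`: it maps the restriction of each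
component of (the pullback to `A × F` of) `Δ` to each `{a} × F` to itself. -/
def IsAutSD {𝒜 : Cl ρ → Submodule ℂ R} (u : Cl ρ) {Γ : Grp V R} {ι : Type*} (Δ : EffDiv 𝒜 Γ ι)
    (ψ : R ≃ₐ[ℂ] R) (σ : Cl ρ ≃+ Cl ρ) : Prop :=
  IsAutS 𝒜 u ψ σ ∧ FixesS Δ id ψ

/-- Only finitely many automorphisms of `F` over `S` which preserve `Δ` act trivially on `Cl(F)`.
(Automorphisms of `R` which differ by invertible functions on `S` on the homogeneous pieces give the
same automorphism of `F`.) -/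
def FiniteKernelS {𝒜 : Cl ρ → Submodule ℂ R} (u : Cl ρ) {Γ : Grp V R} {ι : Type*}
    (Δ : EffDiv 𝒜 Γ ι) : Prop :=
  ∃ N : Finset (R ≃ₐ[ℂ] R), ∀ ψ, IsAutSD u Δ ψ (AddEquiv.refl _) →
    ∃ φ ∈ N, ∀ β, ∃ c, IsUnitS 𝒜 c ∧ ∀ r ∈ 𝒜 β, ψ r = c * φ r

/-- The cone `A^e(F/S)^G = Nef(F/S)^G ∩ Eff(F/S)^G` of the invariant nef and effective classes of `F` is
spanned by finitely many integral classes. -/
def PolyS (𝒜 : Cl ρ → Submodule ℂ R) (u : Cl ρ) (Γ : Grp V R) : Prop :=
  ∃ T : Finset (Fin ρ → ℝ), nefF 𝒜 u Γ ∩ effF 𝒜 Γ = cone T ∧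
    ∀ t ∈ T, ∃ β, Inv 𝒜 Γ β ∧ t = vec β

/-- `(f, ψ) ∘ γ = δ ∘ (f, ψ)` as transformations of `V × F`. -/
def IntertwinesS (𝒜 : Cl ρ → Submodule ℂ R) (f : V → V) (ψ : R ≃ₐ[ℂ] R) (γ δ : Elt V R) : Prop :=
  (∀ v, f (γ.1 v) = δ.1 (f v)) ∧
    ∀ β, ∃ c, IsUnitS 𝒜 c ∧ ∀ r ∈ 𝒜 β, ψ (γ.2 r) = c * δ.2 (ψ r)

/-- The affine transformation `f` of `V` and the automorphism `ψ` of `F` over `S`, which acts on `Cl(F)`
by `σ`, define an automorphism of `X` over `Z = (W × S) / Γ` which preserves `Δ`: the pair `(f, ψ)`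
normalises the group of transformations of `V × F` given by `Γ`, and the map induced on `W × S` is the
identity. -/
structure IsAutXS {𝒜 : Cl ρ → Submodule ℂ R} (u : Cl ρ) {Γ : Grp V R}
    (π : V →ₗ[ℂ] W) {ι : Type*} (Δ : EffDiv 𝒜 Γ ι)
    (f : V ≃ᵃ[ℂ] V) (ψ : R ≃ₐ[ℂ] R) (σ : Cl ρ ≃+ Cl ρ) : Prop where
  autS : IsAutS 𝒜 u ψ σ
  left : ∀ γ ∈ Γ, ∃ δ ∈ Γ, IntertwinesS 𝒜 f ψ γ δ
  right : ∀ δ ∈ Γ, ∃ γ ∈ Γ, IntertwinesS 𝒜 f ψ γ δ
  overW : ∀ v, π (f v) = π v
  fixes : FixesS Δ f ψ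

/-- `𝒢` is a group of linear automorphisms of `N^1(X/Z)` which preserves the integral classes and the
cone of nef and effective classes, and which contains the pullbacks by all automorphisms `(f, ψ)` of
`X` over `Z` as above which preserve `Δ`. The image of `Aut(X/Z, Δ)` has these properties. -/
structure IsAutGroupXS {𝒜 : Cl ρ → Submodule ℂ R} (u : Cl ρ) {Γ : Grp V R}
    (π : V →ₗ[ℂ] W) {j : E →ₗ[ℂ] V} {ι : Type*} (Δ : EffDiv 𝒜 Γ ι)
    (𝒢 : LinGrp (N1 𝒜 Γ j)) : Prop where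
  int : Preserves 𝒢 (integral 𝒜 Γ j)
  nef_eff : Preserves 𝒢 (nefEff 𝒜 u Γ j)
  aut : ∀ f ψ σ, IsAutXS u π Δ f ψ σ → ∀ g, IsPull f σ g → g ∈ 𝒢

end Aut

end Pool.Agent.W5h90.RD
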