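import Pool.Agent.W4h4.NR.GrpF
import Pool.Agent.W5h90.RD.Defs

/-!
# Varieties over an affine variety: semiample classes
-/

set_option autoImplicit false
set_option linter.unusedSectionVars false

namespace Pool.Agent.W5h90.RD

open Pool.Agent.W4h4.NR
open Finset Filter Topology
open Pool.Agent.W594.SYZ2 Pool.Agent.W594.SYZ2.TQ Pool.Agent.TH735.AQ Pool.Agent.X324.CF
open Pool.Agent.Y167 (cone cone_add cone_smul cone_le cone_mono cone_sum mem_cone_self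
  zero_mem_cone cone_image cone_ind cone_of_scaled mem_cone_of_sum Rel Pol Cp CData IsFace AffGrp)

variable {V W E R : Type*} [NormedAddCommGroup V] [NormedSpace ℂ V] [FiniteDimensional ℂ V]
  [NormedAddCommGroup W] [NormedSpace ℂ W]
  [NormedAddCommGroup E] [NormedSpace ℂ E] [FiniteDimensional ℂ E] [CommRing R] [IsDomain R]
  [Algebra ℂ R] {ρ n : ℕ}
  {𝒜 : Cl ρ → Submodule ℂ R} [GradedAlgebra 𝒜] {Γ : Grp V R} {w : Fin n → Cl ρ}
  {u : Cl ρ} {j : E →ₗ[ℂ] V}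

theorem IsAutS.autF {ψ : R ≃ₐ[ℂ] R} {σ : Cl ρ ≃+ Cl ρ} (h : IsAutS 𝒜 u ψ σ) : IsAutF 𝒜 u ψ σ :=
  ⟨h.induces, h.stable⟩

theorem isAutS_of {ψ : R ≃ₐ[ℂ] R} {σ : Cl ρ ≃+ Cl ρ} (h : IsAutF 𝒜 u ψ σ)
    (h' : ∀ r ∈ 𝒜 0, ψ r = r) : IsAutS 𝒜 u ψ σ :=
  ⟨h.induces, h.stable, h'⟩

/-- The relative cone conjecture for `F/S`, in the form of a covering: the cone
`A^e(F/S) = Nef(F/S) ∩ Eff(F/S)` is covered by the translates of the rational polyhedral cone spanned by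
finitely many integral classes in it, under the automorphisms of `F` over `S` which preserve `Δ`. -/
def ConeConjS {V R : Type*} [NormedAddCommGroup V] [NormedSpace ℂ V] [CommRing R] [Algebra ℂ R]
    {ρ : ℕ} {𝒜 : Cl ρ → Submodule ℂ R} (u : Cl ρ) {Γ : Grp V R} {ι : Type*}
    (Δ : EffDiv 𝒜 Γ ι) : Prop :=
  ∃ T : Finset (Fin ρ → ℝ), (∀ t ∈ T, (∃ β : Cl ρ, t = vec β) ∧ t ∈ nefCl 𝒜 u ∩ effCl 𝒜) ∧
    ∀ b ∈ nefCl 𝒜 u ∩ effCl 𝒜, ∃ ψ σ, IsAutSD u Δ ψ σ ∧ ∃ t ∈ cone T, b = act σ t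

theorem IsVarietyS.base (D : IsVarietyS 𝒜 u) : Base 𝒜 (Fin.elim0 : Fin 0 → Cl ρ) where
  gens := fun H hH => by
    rw [eq_top_iff]
    intro β _
    obtain ⟨m, h1, h2⟩ := D.sections β
    have h3 := H.sub_mem (hH _ h1) (hH _ h2)
    rwa [add_sub_cancel_right] at h3
  pointed := fun c _ => funext fun i => i.elim0

/-- Semiample classes are pseudoeffective. -/
theorem semiampleS_eff (D : IsVarietyS 𝒜 u) {β : Cl ρ} (h : SemiampleF 𝒜 u β) :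
    rv β ∈ coneHull {b | ∃ β : Cl ρ, (∃ r ∈ 𝒜 β, r ≠ 0) ∧ b = rv β} := by
  obtain ⟨m, hm, h1⟩ := h
  obtain ⟨p, hp⟩ := D.point
  obtain ⟨r, hr, hr0⟩ := h1 p hp
  have hmr : (0 : ℝ) < m := by exact_mod_cast hm
  refine hull_scaled hmr ⟨m • β, ⟨r, hr, fun h => hr0 (by rw [h, map_zero])⟩, ?_⟩
  rw [rv_nsmul]

theorem KF_sub_nefCl : KF (semiampleInv 𝒜 u Γ) ⊆ nefCl 𝒜 u := by
  refine closure_mono (hull_le ?_)
  rintro _ ⟨β, hβ, rfl⟩
  exact hull_mem ⟨β, hβ.2, rfl⟩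

theorem good_nefS (D : IsVarietyS 𝒜 u) (hQ : IsQuotient 𝒜 u Γ) :
    GoodC (semiampleInv 𝒜 u Γ) u (semiample 𝒜 Γ j u) where
  inv := fun β hβ => hβ.1
  ample := fun β hβ => by
    obtain ⟨m, hm⟩ := D.ample β
    exact ⟨m, hβ.add (hQ.inv.nsmul m), hm⟩
  pointed := fun b h1 h2 => D.numerical b (KF_sub_nefCl h1) (KF_sub_nefCl h2)
  sub := by
    rintro a ⟨𝓛, hc, m, hm, h1⟩
    have hmr : (0 : ℝ) < m := by exact_mod_cast hm
    have h3 : (val a).2 = rv 𝓛.deg := funext hc.2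
    refine ⟨fun e => ?_, ?_⟩
    · obtain ⟨p, hp⟩ := D.point
      obtain ⟨f, hf, hf0⟩ := h1 0 p hp
      obtain ⟨⟨H, hH, h2⟩, -⟩ := hc
      have h4 := Sheaf.nef_of_section hQ (Sheaf.chern_pow hH m) hf.sec ⟨0, fun h => hf0 (by
        rw [h, map_zero])⟩ (j e)
      have e2 : (m : ℂ) = ((m : ℝ) : ℂ) := by push_cast; rfl
      rw [e2, Complex.re_ofReal_mul] at h4
      rw [h2]
      exact nonneg_of_mul_nonneg_right h4 hmr
    · rw [h3]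
      refine subset_closure (hull_mem ⟨_, ⟨𝓛.inv, m, hm, fun p hp => ?_⟩, rfl⟩)
      obtain ⟨f, hf, hf0⟩ := h1 0 p hp
      exact ⟨f 0, hf.mem 0, hf0⟩
  bpf := fun _ hs _ ha => bpf_semiample hs ha
  deg := by
    classical
    rintro β ⟨hβ, m, hm, h1⟩
    have := hQ.fin_gal
    have : Fintype (gal Γ) := Fintype.ofFinite _
    obtain ⟨a, ha1, ha2⟩ := exists_degclass (j := j) D.base hQ hβ m
    have hbpf : ∀ p, Semistable 𝒜 u p → ∃ r ∈ 𝒜 (m • β), p (nrm (gal Γ) r) ≠ 0 := by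
      intro p hp
      refine exists_nonvanish (K := gal Γ) (𝒜 := 𝒜) (β := m • β) (p := p) fun φ => ?_
      obtain ⟨r, hr, hr0⟩ := h1 _ (semistable_comp hQ hp φ.2)
      exact ⟨r, hr, hr0⟩
    refine ⟨Nat.card (gal Γ) * m, Nat.mul_pos Nat.card_pos hm, a,
      ⟨_, ha1, 1, one_pos, fun v p hp => ?_⟩, ?_, ha2⟩
    · obtain ⟨r, hr, hr0⟩ := hbpf p hp
      exact ⟨_, Sheaf.pow_one_section (ofDeg_section hr), hr0⟩
    · obtain ⟨p, hp⟩ := D.point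
      obtain ⟨r, hr, hr0⟩ := hbpf p hp
      refine ⟨_, _, ha1, ofDeg_section hr, 0, fun h => hr0 ?_⟩
      beta_reduce at h
      rw [h, map_zero]



end Pool.Agent.W5h90.RD
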