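import Pool.Agent.W5h90.RD.Base

/-!
# The cones of `F` over `S`
-/

set_option autoImplicit false
set_option linter.unusedSectionVars false

namespace Pool.Agent.W5h90.RD

open Pool.Agent.W4h4.NR
open Finset Filter Topology
open Pool.Agent.W594.SYZ2 Pool.Agent.W594.SYZ2.TQ Pool.Agent.TH735.AQ Pool.Agent.X324.CF
open Pool.Agent.Y167 (cone cone_add cone_smul cone_le cone_mono cone_sum mem_cone_self
  zero_mem_cone cone_image cone_ind cone_of_scaled mem_cone_of_sum Rel Pol Cp CData IsFace AffGrp)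

variable {R : Type*} [CommRing R] [IsDomain R] [Algebra ℂ R] {ρ : ℕ}
  {𝒜 : Cl ρ → Submodule ℂ R} [GradedAlgebra 𝒜] {u : Cl ρ}

theorem semiS_u (hF : IsVarietyS 𝒜 u) : rv u ∈ coneHull (semi 𝒜 u) := by
  obtain ⟨m, hm⟩ := hF.ample u
  have h0 : rv (u + m • u) ∈ coneHull (semi 𝒜 u) := hull_mem ⟨_, hm, rfl⟩
  have h1 : rv (u + m • u) = ((m : ℝ) + 1) • rv u := by
    rw [rv_add, rv_nsmul]
    module
  rw [h1] at h0
  have h2 : (0 : ℝ) < (m : ℝ) + 1 := by positivity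
  have h3 := hull_smul (inv_nonneg.2 h2.le) h0
  rwa [smul_smul, inv_mul_cancel₀ h2.ne', one_smul] at h3

theorem real_ampleS (hF : IsVarietyS 𝒜 u) (b : Fin ρ → ℝ) :
    ∃ C : ℝ, 0 < C ∧ C • rv u - b ∈ coneHull (semi 𝒜 u) := by
  have hint : ∀ β : Cl ρ, ∃ m : ℕ, rv β + (m : ℝ) • rv u ∈ coneHull (semi 𝒜 u) := by
    intro β
    obtain ⟨m, hm⟩ := hF.ample β
    refine ⟨m, hull_mem ⟨_, hm, ?_⟩⟩
    rw [rv_add, rv_nsmul]
  have hk : ∀ k : Fin ρ, ∃ m m' : ℕ, rv (Pi.single k 1 : Cl ρ) + (m : ℝ) • rv u ∈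
      coneHull (semi 𝒜 u) ∧ -rv (Pi.single k 1 : Cl ρ) + (m' : ℝ) • rv u ∈
      coneHull (semi 𝒜 u) := by
    intro k
    obtain ⟨m, hm⟩ := hint (Pi.single k 1)
    obtain ⟨m', hm'⟩ := hint (-Pi.single k 1)
    rw [rv_neg] at hm'
    exact ⟨m, m', hm, hm'⟩
  choose m m' hm hm' using hk
  have hu := semiS_u hF
  have key : ∀ s : Finset (Fin ρ), (∑ k ∈ s, |b k| * ((m k : ℝ) + m' k)) • rv u
      - ∑ k ∈ s, b k • rv (Pi.single k 1 : Cl ρ) ∈ coneHull (semi 𝒜 u) := by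
    intro s
    induction s using Finset.induction_on with
    | empty => simpa using hull_zero
    | insert k s hks ih =>
      rw [Finset.sum_insert hks, Finset.sum_insert hks]
      have h1 : (|b k| * ((m k : ℝ) + m' k) + ∑ k ∈ s, |b k| * ((m k : ℝ) + m' k)) • rv u
          - (b k • rv (Pi.single k 1 : Cl ρ) + ∑ k ∈ s, b k • rv (Pi.single k 1 : Cl ρ))
          = ((|b k| * ((m k : ℝ) + m' k)) • rv u - b k • rv (Pi.single k 1 : Cl ρ))
          + ((∑ k ∈ s, |b k| * ((m k : ℝ) + m' k)) • rv u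
          - ∑ k ∈ s, b k • rv (Pi.single k 1 : Cl ρ)) := by
        rw [add_smul]
        abel
      rw [h1]
      refine hull_add ?_ ih
      rcases le_total 0 (b k) with h | h
      · rw [abs_of_nonneg h]
        have h2 : (b k * ((m k : ℝ) + m' k)) • rv u - b k • rv (Pi.single k 1 : Cl ρ)
            = b k • (-rv (Pi.single k 1 : Cl ρ) + (m' k : ℝ) • rv u) + (b k * m k) • rv u := by
          module
        rw [h2]
        exact hull_add (hull_smul h (hm' k)) (hull_smul (mul_nonneg h (Nat.cast_nonneg _)) hu)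
      · rw [abs_of_nonpos h]
        have h2 : (-b k * ((m k : ℝ) + m' k)) • rv u - b k • rv (Pi.single k 1 : Cl ρ)
            = (-b k) • (rv (Pi.single k 1 : Cl ρ) + (m k : ℝ) • rv u) + (-b k * m' k) • rv u := by
          module
        rw [h2]
        have h' : 0 ≤ -b k := neg_nonneg.2 h
        exact hull_add (hull_smul h' (hm k)) (hull_smul (mul_nonneg h' (Nat.cast_nonneg _)) hu)
  have h0 : 0 ≤ ∑ k, |b k| * ((m k : ℝ) + m' k) :=
    Finset.sum_nonneg fun k _ => mul_nonneg (abs_nonneg _) (by positivity)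
  refine ⟨∑ k, |b k| * ((m k : ℝ) + m' k) + 1, by linarith, ?_⟩
  have h1 := key Finset.univ
  rw [← sum_rv_single b] at h1
  have h2 : (∑ k, |b k| * ((m k : ℝ) + m' k) + 1) • rv u - b
      = ((∑ k, |b k| * ((m k : ℝ) + m' k)) • rv u - b) + rv u := by module
  rw [h2]
  exact hull_add h1 hu

/-- Interior points of the nef cone are combinations of semiample classes. -/
theorem interiorS (hF : IsVarietyS 𝒜 u) {b : Fin ρ → ℝ} (hb : b ∈ nefCl 𝒜 u) {t : ℝ} (ht : 0 < t) :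
    b + t • rv u ∈ coneHull (semi 𝒜 u) :=
  mem_hull_of_closure (B := ⊤) (fun _ _ => Submodule.mem_top) (fun x _ => real_ampleS hF x) hb ht

theorem semiS_eff (hF : IsVarietyS 𝒜 u) : coneHull (semi 𝒜 u) ⊆ effCl 𝒜 := by
  refine hull_le ?_
  rintro _ ⟨β, hβ, rfl⟩
  exact semiampleS_eff hF hβ

/-- The data for the nef cone of `F`. -/
theorem cdataS0 (hF : IsVarietyS 𝒜 u) :
    ∃ (ξ : (Fin ρ → ℝ) →ₗ[ℝ] ℝ) (Y : Finset (Fin ρ → ℝ)),
      CData (intCl ρ) (nefCl 𝒜 u) ξ (rv u) Y := by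
  classical
  obtain ⟨z, hz'⟩ := exists_int_form (K := nefCl 𝒜 u) isClosed_closure
    (subset_closure hull_zero)
    (fun a ha b hb => closure_hull_add ha hb) (fun t ht a ha => closure_hull_smul ht ha)
    (fun x h1 h2 => hF.numerical x h1 h2)
  have hz : ∀ x ∈ nefCl 𝒜 u, ‖x‖ ≤ dot (rv z) x := fun x hx => hz' x hx
  have hadd : ∀ a ∈ nefCl 𝒜 u, ∀ b ∈ nefCl 𝒜 u, a + b ∈ nefCl 𝒜 u :=
    fun a ha b hb => nefCl_add ha hb
  have hsmul : ∀ t : ℝ, 0 ≤ t → ∀ a ∈ nefCl 𝒜 u, t • a ∈ nefCl 𝒜 u :=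
    fun t ht a ha => nefCl_smul ht ha
  have yL : rv u ∈ intCl ρ := ⟨u, rfl⟩
  have yK : rv u ∈ nefCl 𝒜 u := subset_closure (semiS_u hF)
  have yint : ∀ b : Fin ρ → ℝ, ∃ C : ℝ, 0 < C ∧ C • rv u - b ∈ nefCl 𝒜 u := by
    intro b
    obtain ⟨C, hC, h1⟩ := real_ampleS hF b
    exact ⟨C, hC, subset_closure h1⟩
  obtain ⟨Y, hY1, hY2⟩ := exists_Y hadd hsmul yL yK yint span_intCl
  refine ⟨dot (rv z), Y, ?_⟩
  refine
    { add := hadd
      smul := hsmul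
      xi_int := fun b hb => ?_
      xi_pos := fun b hb hb0 => ?_
      fin := fun C => ?_
      y_L := yL
      y_N := yK
      y_int := yint
      dom := fun η => ?_
      sep := fun b hb => ?_
      Y_mem := hY1
      Y_span := hY2 }
  · obtain ⟨β, rfl⟩ := hb
    rw [dot_int]
    exact ⟨_, rfl⟩
  · exact lt_of_lt_of_le (norm_pos_iff.2 hb0) (hz _ hb)
  · have hfin : (Set.Icc (fun _ : Fin ρ => -⌈C⌉) (fun _ => ⌈C⌉)).Finite := Set.finite_Icc _ _
    refine (hfin.image rv).subset ?_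
    rintro b ⟨⟨β, rfl⟩, hb2, hb3⟩
    have h2 : ‖rv β‖ ≤ C := (hz _ hb2).trans hb3
    have h4 : ∀ k, |(β k : ℝ)| ≤ C := by
      intro k
      have h5 := (norm_le_pi_norm (rv β) k).trans h2
      rwa [rv_apply, Real.norm_eq_abs] at h5
    refine ⟨β, ⟨fun k => ?_, fun k => ?_⟩, rfl⟩
    · have h5 := (abs_le.1 (h4 k)).1
      have h6 : (-(⌈C⌉ : ℝ)) ≤ β k := le_trans (neg_le_neg (Int.le_ceil C)) h5
      exact_mod_cast h6
    · have h5 := (abs_le.1 (h4 k)).2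
      have h6 : (β k : ℝ) ≤ ⌈C⌉ := h5.trans (Int.le_ceil C)
      exact_mod_cast h6
  · have hc : Continuous η := η.continuous_of_finiteDimensional
    let η' : (Fin ρ → ℝ) →L[ℝ] ℝ := ⟨η, hc⟩
    refine ⟨‖η'‖, fun b hb => ?_⟩
    have h1 : ‖η' b‖ ≤ ‖η'‖ * ‖b‖ := η'.le_opNorm b
    refine h1.trans ?_
    exact mul_le_mul_of_nonneg_left (hz _ hb) (norm_nonneg η')
  · have h1 : ∃ k, b k ≠ 0 := by
      by_contra hcon
      push Not at hcon
      exact hb (funext hcon)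
    obtain ⟨k, hk⟩ := h1
    refine ⟨LinearMap.proj k, fun y hy => ?_, hk⟩
    obtain ⟨β, rfl⟩ := hy
    exact ⟨β k, rfl⟩

/-- The data for the cone of nef and effective classes of `F`. -/
theorem cdataS1 (hF : IsVarietyS 𝒜 u) :
    ∃ (ξ : (Fin ρ → ℝ) →ₗ[ℝ] ℝ) (Y : Finset (Fin ρ → ℝ)),
      CData (intCl ρ) (nefCl 𝒜 u ∩ effCl 𝒜) ξ (rv u) Y := by
  obtain ⟨ξ, Y, D⟩ := cdataS0 hF
  obtain ⟨Y', D'⟩ := cdata_mono D (K' := nefCl 𝒜 u ∩ effCl 𝒜) (fun x hx => hx.1)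
    (fun x hx y hy => ⟨nefCl_add hx.1 hy.1, effCl_add hx.2 hy.2⟩)
    (fun t ht x hx => ⟨nefCl_smul ht hx.1, effCl_smul ht hx.2⟩)
    (by
      rintro x ⟨t, ht, hx⟩
      have h1 := interiorS hF hx ht
      rw [sub_add_cancel] at h1
      exact ⟨subset_closure h1, semiS_eff hF h1⟩)
  exact ⟨ξ, Y', D'⟩


end Pool.Agent.W5h90.RD
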