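import Pool.Agent.W5h90.RD.Cone

/-!
# The group of the automorphisms of `F` over `S`
-/

set_option autoImplicit false
set_option linter.unusedSectionVars false

namespace Pool.Agent.W5h90.RD

open Pool.Agent.W4h4.NR
open Finset Filter Topology
open Pool.Agent.W594.SYZ2 Pool.Agent.W594.SYZ2.TQ Pool.Agent.TH735.AQ Pool.Agent.X324.CF
open Pool.Agent.Y167 (cone cone_add cone_smul cone_le cone_mono cone_sum mem_cone_self
  zero_mem_cone cone_image cone_ind cone_of_scaled mem_cone_of_sum Rel Pol Cp CData IsFace AffGrp)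

variable {R : Type*} [CommRing R] [IsDomain R] [Algebra ℂ R] {ρ : ℕ}
  {𝒜 : Cl ρ → Submodule ℂ R} [GradedAlgebra 𝒜] {u : Cl ρ}

/-! ### Invertible functions on `S` -/

theorem IsUnitS.one : IsUnitS 𝒜 (1 : R) := ⟨SetLike.one_mem_graded 𝒜, isUnit_one⟩

theorem IsUnitS.mul {c d : R} (hc : IsUnitS 𝒜 c) (hd : IsUnitS 𝒜 d) : IsUnitS 𝒜 (c * d) := by
  refine ⟨?_, hc.2.mul hd.2⟩
  have h1 := SetLike.mul_mem_graded hc.1 hd.1
  rwa [add_zero] at h1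

theorem IsUnitS.inv {c : R} (hc : IsUnitS 𝒜 c) : ∃ d, IsUnitS 𝒜 d ∧ c * d = 1 ∧ d * c = 1 := by
  classical
  obtain ⟨d, hd⟩ := hc.2.exists_right_inv
  refine ⟨d, ⟨?_, IsUnit.of_mul_eq_one _ (by rw [mul_comm]; exact hd)⟩, hd,
    by rw [mul_comm]; exact hd⟩
  have h0 : c ≠ 0 := hc.2.ne_zero
  have h1 : ∀ β : Cl ρ, β ≠ 0 → (DirectSum.decompose 𝒜 d β : R) = 0 := by
    intro β hβ
    have h2 := DirectSum.coe_decompose_mul_add_of_left_mem 𝒜 (i := 0) (j := β) (b := d) hc.1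
    rw [hd, zero_add] at h2
    have h3 : (DirectSum.decompose 𝒜 (1 : R) β : R) = 0 :=
      DirectSum.decompose_of_mem_ne 𝒜 (SetLike.one_mem_graded 𝒜) (Ne.symm hβ)
    rw [h3] at h2
    exact (mul_eq_zero.1 h2.symm).resolve_left h0
  have h4 : d = (DirectSum.decompose 𝒜 d 0 : R) := by
    conv_lhs => rw [← DirectSum.sum_support_decompose 𝒜 d]
    rw [Finset.sum_eq_single 0]
    · intro β _ hβ
      exact h1 β hβ
    · intro h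
      rw [DFinsupp.notMem_support_iff.1 h]
      rfl
  rw [h4]
  exact (DirectSum.decompose 𝒜 d 0).2

theorem IsUnitS.map {ψ : R ≃ₐ[ℂ] R} {σ : Cl ρ ≃+ Cl ρ} (h : IsAutF 𝒜 u ψ σ) {c : R}
    (hc : IsUnitS 𝒜 c) : IsUnitS 𝒜 (ψ c) := by
  refine ⟨?_, hc.2.map ψ⟩
  have h1 := (h.induces 0 c).1 hc.1
  rwa [map_zero] at h1

/-! ### The groups -/

/-- The action on `Cl(F)` is determined by the automorphism. -/
theorem sigmaS_unique (hF : IsVarietyS 𝒜 u) {ψ : R ≃ₐ[ℂ] R} {σ τ : Cl ρ ≃+ Cl ρ}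
    (h1 : ∀ β, ∀ r ∈ 𝒜 β, ψ r ∈ 𝒜 (σ β)) (h2 : ∀ β, ∀ r ∈ 𝒜 β, ψ r ∈ 𝒜 (τ β)) : σ = τ := by
  have h3 := hF.base.gens ((σ : Cl ρ →+ Cl ρ).eqLocus (τ : Cl ρ →+ Cl ρ)) (by
    rintro β ⟨r, hr, hr0⟩
    change σ β = τ β
    have h4 := h1 β r hr
    have h5 := h2 β r hr
    by_contra hne
    have h6 := DirectSum.degree_eq_of_mem_mem 𝒜 h4 h5 (by
      intro h
      exact hr0 ((map_eq_zero_iff _ ψ.injective).1 h))
    exact hne h6)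
  ext1 β
  have h4 : β ∈ (σ : Cl ρ →+ Cl ρ).eqLocus (τ : Cl ρ →+ Cl ρ) := by
    rw [h3]
    trivial
  exact h4

/-- The automorphisms of `R` which act trivially on `F`. -/
def ScS (𝒜 : Cl ρ → Submodule ℂ R) [GradedAlgebra 𝒜] (u : Cl ρ) : Subgroup (GF 𝒜 u) where
  carrier := {g | (∀ β, ∃ c, IsUnitS 𝒜 c ∧ ∀ r ∈ 𝒜 β, g.1.1 r = c * r) ∧ g.1.2 = 1}
  one_mem' := ⟨fun β => ⟨1, IsUnitS.one, fun r _ => (one_mul r).symm⟩, rfl⟩
  mul_mem' := by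
    rintro g h ⟨h1, h2⟩ ⟨h3, h4⟩
    refine ⟨fun β => ?_, ?_⟩
    · obtain ⟨c, hc, hc'⟩ := h1 β
      obtain ⟨d, hd, hd'⟩ := h3 β
      obtain ⟨e, he, he'⟩ := h1 0
      refine ⟨e * d * c, (he.mul hd).mul hc, fun r hr => ?_⟩
      change g.1.1 (h.1.1 r) = _
      rw [hd' r hr, map_mul, he' d hd.1, hc' r hr]
      ring
    · change g.1.2 * h.1.2 = 1
      rw [h2, h4, mul_one]
  inv_mem' := by
    rintro g ⟨h1, h2⟩
    refine ⟨fun β => ?_, ?_⟩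
    · obtain ⟨c, hc, hc'⟩ := h1 β
      obtain ⟨d, hd, hcd, hdc⟩ := hc.inv
      obtain ⟨e, he, he'⟩ := h1 0
      obtain ⟨k, hk, hek, hke⟩ := he.inv
      refine ⟨k * d, hk.mul hd, fun r hr => ?_⟩
      change g.1.1.symm r = _
      rw [AlgEquiv.symm_apply_eq, map_mul, hc' r hr]
      have h3 := he' (k * d) (hk.mul hd).1
      rw [h3]
      calc r = (e * k) * (c * d) * r := by rw [hek, hcd]; ring
        _ = _ := by ring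
    · change g.1.2⁻¹ = 1
      rw [h2, inv_one]

theorem mem_ScS {g : GF 𝒜 u} :
    g ∈ ScS 𝒜 u ↔ (∀ β, ∃ c, IsUnitS 𝒜 c ∧ ∀ r ∈ 𝒜 β, g.1.1 r = c * r) ∧ g.1.2 = 1 := Iff.rfl

theorem ScS_conj (g s : GF 𝒜 u) (hs : s ∈ ScS 𝒜 u) : g * s * g⁻¹ ∈ ScS 𝒜 u := by
  rw [mem_ScS] at hs ⊢
  obtain ⟨h1, h2⟩ := hs
  refine ⟨fun β => ?_, ?_⟩
  · obtain ⟨c, hc, hc'⟩ := h1 (g.1.2⁻¹ β)
    refine ⟨g.1.1 c, hc.map g.2, fun r hr => ?_⟩
    change g.1.1 (s.1.1 (g.1.1⁻¹ r)) = g.1.1 c * r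
    rw [hc' _ ((g.2.inv.induces _ _).1 hr), map_mul]
    congr 1
    exact g.1.1.apply_symm_apply r
  · change g.1.2 * s.1.2 * g.1.2⁻¹ = 1
    rw [h2, mul_one, mul_inv_cancel]

section Pair

variable {V : Type*} [NormedAddCommGroup V] [NormedSpace ℂ V] [FiniteDimensional ℂ V]
  {Γ : Grp V R} {ι : Type*} {Δ : EffDiv 𝒜 Γ ι}

theorem FixesS.one : FixesS Δ id 1 := fun i _ =>
  ⟨fun _ => 1, 1, differentiable_const _, fun _ => one_ne_zero, IsUnitS.one,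
    fun v => by rw [one_smul, one_mul]; rfl⟩

theorem FixesS.mul {ψ ψ' : R ≃ₐ[ℂ] R} (hψ : ∀ r ∈ 𝒜 0, ψ r = r) (h : FixesS Δ id ψ)
    (h' : FixesS Δ id ψ') : FixesS Δ id (ψ * ψ') := by
  intro i hi
  obtain ⟨a, c, ha1, ha2, hc, ha3⟩ := h i hi
  obtain ⟨b, d, hb1, hb2, hd, hb3⟩ := h' i hi
  refine ⟨fun v => a v * b v, c * d, ha1.mul hb1, fun v => mul_ne_zero (ha2 v) (hb2 v),
    hc.mul hd, fun v => ?_⟩
  have h1 := ha3 v
  have h2 := hb3 v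
  change Δ.s i v = _ at h1
  change Δ.s i v = _ at h2
  change Δ.s i v = (a v * b v) • (c * d * ψ (ψ' (Δ.s i v)))
  have h3 : ψ (Δ.s i v) = b v • (d * ψ (ψ' (Δ.s i v))) := by
    conv_lhs => rw [h2]
    rw [map_smul, map_mul, hψ d hd.1]
  rw [h3] at h1
  refine h1.trans ?_
  rw [mul_smul, mul_smul_comm, mul_assoc]

theorem FixesS.inv {ψ : R ≃ₐ[ℂ] R} (hψ : ∀ r ∈ 𝒜 0, ψ r = r) (h : FixesS Δ id ψ) :
    FixesS Δ id ψ⁻¹ := by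
  intro i hi
  obtain ⟨a, c, ha1, ha2, hc, ha3⟩ := h i hi
  obtain ⟨d, hd, hcd, hdc⟩ := hc.inv
  refine ⟨fun v => (a v)⁻¹, d, ha1.inv ha2, fun v => inv_ne_zero (ha2 v), hd, fun v => ?_⟩
  have h1 := ha3 v
  change Δ.s i v = _ at h1
  change Δ.s i v = (a v)⁻¹ • (d * ψ.symm (Δ.s i v))
  have h3 : ψ.symm (Δ.s i v) = a v • (c * Δ.s i v) := by
    conv_lhs => rw [h1]
    rw [map_smul, map_mul, ψ.symm_apply_apply]
    have h4 : ψ.symm c = c := by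
      rw [AlgEquiv.symm_apply_eq, hψ c hc.1]
    rw [h4]
  rw [h3, mul_smul_comm, smul_smul, inv_mul_cancel₀ (ha2 v), one_smul, ← mul_assoc, hdc, one_mul]

/-- The automorphisms of `F` over `S` which preserve `Δ`. -/
def HS (u : Cl ρ) (Δ : EffDiv 𝒜 Γ ι) : Subgroup (GF 𝒜 u) where
  carrier := {g | (∀ r ∈ 𝒜 0, g.1.1 r = r) ∧ FixesS Δ id g.1.1}
  one_mem' := ⟨fun _ _ => rfl, FixesS.one⟩
  mul_mem' := by
    rintro g h ⟨h1, h2⟩ ⟨h3, h4⟩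
    refine ⟨fun r hr => ?_, FixesS.mul h1 h2 h4⟩
    change g.1.1 (h.1.1 r) = r
    rw [h3 r hr, h1 r hr]
  inv_mem' := by
    rintro g ⟨h1, h2⟩
    refine ⟨fun r hr => ?_, FixesS.inv h1 h2⟩
    change g.1.1.symm r = r
    rw [AlgEquiv.symm_apply_eq, h1 r hr]

theorem mem_HS {g : GF 𝒜 u} :
    g ∈ HS u Δ ↔ (∀ r ∈ 𝒜 0, g.1.1 r = r) ∧ FixesS Δ id g.1.1 := Iff.rfl

theorem HS_of_aut {ψ : R ≃ₐ[ℂ] R} {σ : Cl ρ ≃+ Cl ρ} (h : IsAutSD u Δ ψ σ) :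
    (⟨(ψ, σ), h.1.autF⟩ : GF 𝒜 u) ∈ HS u Δ := ⟨h.1.overS, h.2⟩

theorem aut_of_HS {g : GF 𝒜 u} (h : g ∈ HS u Δ) : IsAutSD u Δ g.1.1 g.1.2 :=
  ⟨isAutS_of g.2 h.1, h.2⟩

theorem QFS_finite (hF : IsVarietyS 𝒜 u) (hQ : IsQuotient 𝒜 u Γ) : Finite (QF u 𝒜 Γ) := by
  have := hQ.fin_gal
  let f : QF u 𝒜 Γ → gal Γ := fun g => ⟨g.1.1.1, g.2⟩
  refine Finite.of_injective f ?_
  intro g h hgh
  have h1 : g.1.1.1 = h.1.1.1 := congrArg Subtype.val hgh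
  have h2 : g.1.1.2 = h.1.1.2 := by
    refine sigmaS_unique hF (ψ := g.1.1.1) (fun β r hr => (g.1.2.induces β r).1 hr) fun β r hr => ?_
    rw [h1]
    exact (h.1.2.induces β r).1 hr
  exact Subtype.ext (Subtype.ext (Prod.ext h1 h2))

/-- The elements of `Γ` give automorphisms of `F`. -/
theorem autS_of_mem (hF : IsVarietyS 𝒜 u) (hQ : IsQuotient 𝒜 u Γ) {γ : Elt V R} (hγ : γ ∈ Γ) :
    ∃ σ, IsAutF 𝒜 u γ.2 σ := by
  obtain ⟨σ, hσ⟩ := hQ.perm γ hγ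
  obtain ⟨τ, hτ⟩ := hQ.perm γ⁻¹ (Γ.inv_mem hγ)
  have h1 : σ.trans τ = AddEquiv.refl _ := by
    refine sigmaS_unique hF (ψ := (1 : R ≃ₐ[ℂ] R)) (fun β r hr => ?_) fun β r hr => hr
    have h2 := hτ _ _ (hσ β r hr)
    have h3 : (γ⁻¹).2 (γ.2 r) = r := γ.2.symm_apply_apply r
    rw [h3] at h2
    exact h2
  have h1' : ∀ β, τ (σ β) = β := fun β => congrFun (congrArg DFunLike.coe h1) β
  refine ⟨σ, ⟨fun β r => ⟨fun hr => hσ β r hr, fun hr => ?_⟩, fun p => ⟨fun hp => ?_, fun hp => ?_⟩⟩⟩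
  · have h2 := hτ _ _ hr
    have h3 : (γ⁻¹).2 (γ.2 r) = r := γ.2.symm_apply_apply r
    rwa [h3, h1'] at h2
  · exact semistable_comp hQ hp (mem_gal hγ)
  · have h2 := semistable_comp hQ hp (mem_gal (Γ.inv_mem hγ))
    have h3 : (p.comp (γ.2 : R →ₐ[ℂ] R)).comp ((γ⁻¹).2 : R →ₐ[ℂ] R) = p := by
      ext r
      change p (γ.2 (γ.2.symm r)) = p r
      rw [γ.2.apply_symm_apply]
    rwa [h3] at h2

/-- The finite group, which may act non-trivially on `S`, normalises the group of the automorphisms over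
`S` which preserve `Δ`. -/
theorem QFS_conj (g h : GF 𝒜 u) (hg : g ∈ QF u 𝒜 Γ) (hh : h ∈ HS u Δ) : g * h * g⁻¹ ∈ HS u Δ := by
  rw [mem_HS] at hh ⊢
  obtain ⟨hh0, hh⟩ := hh
  refine ⟨fun r hr => ?_, ?_⟩
  · change g.1.1 (h.1.1 (g.1.1⁻¹ r)) = r
    have h1 := (g.2.inv.induces 0 r).1 hr
    rw [map_zero] at h1
    rw [hh0 _ h1]
    exact g.1.1.apply_symm_apply r
  obtain ⟨γ, hγ, hγg⟩ := hg
  have hγ' : γ.2 = g.1.1 := hγg
  intro i hi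
  obtain ⟨a, c, ha1, ha2, hc, ha3⟩ := hh i hi
  refine ⟨fun v => a (γ.1.symm v), g.1.1 c, ha1.comp (affine_differentiable γ.1.symm),
    fun v => ha2 _, hc.map g.2, fun v => ?_⟩
  have h1 := (Δ.sect i).eq ⟨γ, hγ⟩ (γ.1.symm v)
  have h2 : γ.1 (γ.1.symm v) = v := γ.1.apply_symm_apply v
  simp only at h1
  rw [h2, hγ'] at h1
  set e := (Δ.L i).e ⟨γ, hγ⟩ (γ.1.symm v) with he
  have h3 := ha3 (γ.1.symm v)
  change Δ.s i (γ.1.symm v) = _ at h3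
  change Δ.s i v = a (γ.1.symm v) • (g.1.1 c * g.1.1 (h.1.1 (g.1.1.symm (Δ.s i v))))
  have h4 : g.1.1.symm (Δ.s i v) = e • Δ.s i (γ.1.symm v) := by
    rw [h1, map_smul, g.1.1.symm_apply_apply]
  rw [h4, map_smul, map_smul, mul_smul_comm, smul_comm, ← map_mul g.1.1,
    ← map_smul g.1.1 (a (γ.1.symm v)), ← h3]
  exact h1

/-- The kernel of the action is finite modulo the automorphisms which act trivially on `F`. -/
theorem kerS_finite (hk : FiniteKernelS u Δ) : ∃ N : Set (GF 𝒜 u), N.Finite ∧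
    ∀ h ∈ HS u Δ, Θ 𝒜 u h = 1 → ∃ n ∈ N, n⁻¹ * h ∈ ScS 𝒜 u := by
  classical
  obtain ⟨N, hN⟩ := hk
  let X : Set (GF 𝒜 u) := {h | h ∈ HS u Δ ∧ h.1.2 = 1}
  have h1 : ∀ h ∈ X, ∃ φ ∈ N, ∀ β, ∃ c, IsUnitS 𝒜 c ∧ ∀ r ∈ 𝒜 β, h.1.1 r = c * φ r := by
    rintro h ⟨hh, h2⟩
    refine hN _ ?_
    have h3 := aut_of_HS hh
    rw [h2] at h3
    exact h3
  choose! φ hφN hφ using h1
  obtain ⟨Y, hYX, hYf, hY⟩ := reps X φ (N.finite_toSet.subset (by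
    rintro _ ⟨h, hh, rfl⟩
    exact hφN h hh))
  refine ⟨Y, hYf, fun h hh hΘ => ?_⟩
  have hhX : h ∈ X := by
    refine ⟨hh, act_inj fun b => ?_⟩
    have h2 := LinearEquiv.congr_fun hΘ b
    rw [Θ_apply] at h2
    rw [h2]
    exact (act_refl b).symm
  obtain ⟨y, hy, hyh⟩ := hY h hhX
  refine ⟨y, hy, ?_⟩
  rw [mem_ScS]
  refine ⟨fun β => ?_, ?_⟩
  · obtain ⟨c, hc, hc1⟩ := hφ h hhX β
    obtain ⟨c', hc', hc2⟩ := hφ y (hYX hy) β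
    obtain ⟨d, hd, hcd, hdc⟩ := hc'.inv
    refine ⟨c * d, hc.mul hd, fun r hr => ?_⟩
    change y.1.1.symm (h.1.1 r) = _
    have hy0 := (hYX hy).1.1
    rw [AlgEquiv.symm_apply_eq, map_mul, hy0 _ (hc.mul hd).1, hc1 r hr, hc2 r hr, hyh]
    calc c * φ h r = c * (d * c') * φ h r := by rw [hdc]; ring
      _ = _ := by ring
  · change y.1.2⁻¹ * h.1.2 = 1
    rw [(hYX hy).2, hhX.2, inv_one, mul_one]

end Pair

end Pool.Agent.W5h90.RD
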