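import Pool.Agent.W5h90.RD.Grp
import Pool.Agent.W4h4.NR.FibMain

/-!
# The relative cone conjecture for `F/S` implies the one for `(A × F) / G` over `(A'' × S) / G`
-/

set_option autoImplicit false
set_option linter.unusedSectionVars false

namespace Pool.Agent.W5h90.RD

open Pool.Agent.W4h4.NR
open Finset Filter Topology
open Pool.Agent.W594.SYZ2 Pool.Agent.W594.SYZ2.TQ Pool.Agent.TH735.AQ Pool.Agent.X324.CF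
open Pool.Agent.Y167 (cone cone_add cone_smul cone_le cone_mono cone_sum mem_cone_self
  zero_mem_cone cone_image cone_ind cone_of_scaled mem_cone_of_sum Rel Pol Cp CData IsFace AffGrp)
open Pool.Agent.Y167.CC (LinGrp Preserves IsFundDomain)

variable {V W E R : Type*} [NormedAddCommGroup V] [NormedSpace ℂ V] [FiniteDimensional ℂ V]
  [NormedAddCommGroup W] [NormedSpace ℂ W] [FiniteDimensional ℂ W]
  [NormedAddCommGroup E] [NormedSpace ℂ E] [FiniteDimensional ℂ E]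
  [CommRing R] [IsDomain R] [Algebra ℂ R] {ρ : ℕ}
  {𝒜 : Cl ρ → Submodule ℂ R} [GradedAlgebra 𝒜] {u : Cl ρ} {Γ : Grp V R} {j : E →ₗ[ℂ] V}

section Fixed

theorem inducesS_eq (hF : IsVarietyS 𝒜 u) {ψ : R ≃ₐ[ℂ] R} {σ τ : Cl ρ ≃+ Cl ρ}
    (h1 : Induces 𝒜 ψ σ) (h2 : IsAutF 𝒜 u ψ τ) : σ = τ :=
  sigmaS_unique hF h1 fun β r hr => (h2.induces β r).1 hr

/-- A class which is fixed by the finite group is invariant. -/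
theorem invS_of_fixed (hF : IsVarietyS 𝒜 u) (hQ : IsQuotient 𝒜 u Γ) {β : Cl ρ}
    (h : ∀ q ∈ QF u 𝒜 Γ, Θ 𝒜 u q (rv β) = rv β) : Inv 𝒜 Γ β := by
  intro γ hγ σ hσ
  obtain ⟨τ, hτ⟩ := autS_of_mem hF hQ hγ
  have h1 := inducesS_eq hF hσ hτ
  have h2 := h ⟨(γ.2, τ), hτ⟩ (mem_gal hγ)
  rw [Θ_apply, act_rv] at h2
  rw [h1]
  exact rv_inj h2

variable [Fintype (QF u 𝒜 Γ)]

theorem nmS_inv (hF : IsVarietyS 𝒜 u) (hQ : IsQuotient 𝒜 u Γ) (β : Cl ρ) :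
    Inv 𝒜 Γ (∑ q : QF u 𝒜 Γ, q.1.1.2 β) := by
  refine invS_of_fixed hF hQ fun q hq => ?_
  rw [← nm_rv]
  exact nm_fixed _ _ _ hq

theorem nmS_nef (hF : IsVarietyS 𝒜 u) (hQ : IsQuotient 𝒜 u Γ) {b : Fin ρ → ℝ}
    (hb : b ∈ nefCl 𝒜 u) : nm (Θ 𝒜 u) (QF u 𝒜 Γ) b ∈ KF (semiampleInv 𝒜 u Γ) := by
  have hcont : Continuous (nm (Θ 𝒜 u) (QF u 𝒜 Γ)) :=
    (nm (Θ 𝒜 u) (QF u 𝒜 Γ)).continuous_of_finiteDimensional
  refine map_mem_closure hcont hb fun a ha => ?_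
  refine hull_ind (p := fun a => nm (Θ 𝒜 u) (QF u 𝒜 Γ) a ∈
    coneHull {b | ∃ β ∈ semiampleInv 𝒜 u Γ, b = rv β}) ?_ ?_ ?_ ?_ ha
  · rw [map_zero]
    exact hull_zero
  · intro a b ha hb
    rw [map_add]
    exact hull_add ha hb
  · intro t a ht ha
    rw [map_smul]
    exact hull_smul ht ha
  · rintro _ ⟨β, hβ, rfl⟩
    have h1 : nm (Θ 𝒜 u) (QF u 𝒜 Γ) (vec β) = rv (∑ q : QF u 𝒜 Γ, q.1.1.2 β) := nm_rv β
    rw [h1]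
    refine hull_mem ⟨_, ⟨nmS_inv hF hQ β, ?_⟩, rfl⟩
    exact SemiampleF.sum _ _ fun q _ => Semi_act q.1.2 hβ

theorem nmS_eff (hF : IsVarietyS 𝒜 u) (hQ : IsQuotient 𝒜 u Γ) {b : Fin ρ → ℝ}
    (hb : b ∈ effCl 𝒜) : nm (Θ 𝒜 u) (QF u 𝒜 Γ) b ∈ effF 𝒜 Γ := by
  refine hull_ind (p := fun a => nm (Θ 𝒜 u) (QF u 𝒜 Γ) a ∈ effF 𝒜 Γ) ?_ ?_ ?_ ?_ hb
  · rw [map_zero]
    exact hull_zero
  · intro a b ha hb
    rw [map_add]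
    exact hull_add ha hb
  · intro t a ht ha
    rw [map_smul]
    exact hull_smul ht ha
  · rintro _ ⟨β, ⟨r, hr, hr0⟩, rfl⟩
    have h1 : nm (Θ 𝒜 u) (QF u 𝒜 Γ) (vec β) = rv (∑ q : QF u 𝒜 Γ, q.1.1.2 β) := nm_rv β
    rw [h1]
    refine hull_mem ⟨_, nmS_inv hF hQ β, ?_, rfl⟩
    refine eff_sum _ _ fun q _ => ⟨q.1.1.1 r, (q.1.2.induces _ _).1 hr, fun h => hr0 ?_⟩
    exact (map_eq_zero_iff _ q.1.1.1.injective).1 h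

/-- The sum of the translates of an integral nef and effective class. -/
theorem nmS_good (hF : IsVarietyS 𝒜 u) (hQ : IsQuotient 𝒜 u Γ) {b : Fin ρ → ℝ}
    (hb : b ∈ intCl ρ) (hb' : b ∈ nefCl 𝒜 u ∩ effCl 𝒜) :
    (∃ β, Inv 𝒜 Γ β ∧ nm (Θ 𝒜 u) (QF u 𝒜 Γ) b = rv β) ∧
      nm (Θ 𝒜 u) (QF u 𝒜 Γ) b ∈ KF (semiampleInv 𝒜 u Γ) ∧
      nm (Θ 𝒜 u) (QF u 𝒜 Γ) b ∈ effF 𝒜 Γ := by
  obtain ⟨β, rfl⟩ := hb
  exact ⟨⟨_, nmS_inv hF hQ β, nm_rv β⟩, nmS_nef hF hQ hb'.1, nmS_eff hF hQ hb'.2⟩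

end Fixed

/-- The pullback by the identity of `A` and an automorphism of `F`. -/
theorem exists_pullS (hF : IsVarietyS 𝒜 u) (hQ : IsQuotient 𝒜 u Γ) (hj : Function.Injective j)
    {σ : Cl ρ ≃+ Cl ρ} (h1 : ∀ β, Inv 𝒜 Γ β → Inv 𝒜 Γ (σ β))
    (h2 : ∀ β, Inv 𝒜 Γ β → Inv 𝒜 Γ (σ.symm β)) :
    ∃ g : N1 𝒜 Γ j ≃ₗ[ℝ] N1 𝒜 Γ j, IsPull 1 σ g := by
  let sB : Bs 𝒜 Γ ≃ₗ[ℝ] Bs 𝒜 Γ :=
    { toFun := fun b => ⟨act σ.symm b.1, act_Bs h2 b.2⟩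
      map_add' := fun a b => Subtype.ext (map_add (actL σ.symm) a.1 b.1)
      map_smul' := fun c a => Subtype.ext (map_smul (actL σ.symm) c a.1)
      invFun := fun b => ⟨act σ b.1, act_Bs h1 b.2⟩
      left_inv := fun b => Subtype.ext (act_symm σ b.1)
      right_inv := fun b => Subtype.ext (act_symm' σ b.1) }
  let G : N1 𝒜 Γ j ≃ₗ[ℝ] N1 𝒜 Γ j := ((eqv hF.base hQ).trans
    (LinearEquiv.prodCongr (LinearEquiv.refl ℝ _) sB)).trans (eqv hF.base hQ).symm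
  have hG : ∀ a, G a = i1 (p1 hQ a) + i2 hF.base hQ (sB (p2 a)) := fun a => rfl
  refine ⟨G, fun a => ⟨fun v w v' w' hv hw => ?_, ?_⟩⟩
  · rw [hG]
    change (p1 hQ a).1 v w + 0 = _
    rw [add_zero]
    have hv' : j v' = j v := hv
    have hw' : j w' = j w := hw
    rw [hj hv', hj hw']
    rfl
  · rw [hG]
    change act σ ((0 : Fin ρ → ℝ) + act σ.symm (val a).2) = _
    rw [zero_add, act_symm]

/-- An element of the centraliser of the finite group gives an automorphism of `X` over `Z`. -/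
theorem autXS_of_comm (hF : IsVarietyS 𝒜 u) (hQ : IsQuotient 𝒜 u Γ)
    (π : V →ₗ[ℂ] W) {ι : Type*} {Δ : EffDiv 𝒜 Γ ι} {z : GF 𝒜 u} (hz : z ∈ HS u Δ)
    (hc : ∀ q ∈ QF u 𝒜 Γ, ∃ s ∈ ScS 𝒜 u, z * q * z⁻¹ = q * s) :
    IsAutXS u π Δ 1 z⁻¹.1.1 z⁻¹.1.2 := by
  have hz' : z⁻¹ ∈ HS u Δ := (HS u Δ).inv_mem hz
  have key : ∀ γ ∈ Γ, IntertwinesS 𝒜 (1 : V ≃ᵃ[ℂ] V) z⁻¹.1.1 γ γ := by
    intro γ hγ
    refine ⟨fun v => rfl, fun β => ?_⟩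
    obtain ⟨τ, hτ⟩ := autS_of_mem hF hQ hγ
    obtain ⟨s, hs, h1⟩ := hc ⟨(γ.2, τ), hτ⟩ (mem_gal hγ)
    have h2 : (⟨(γ.2, τ), hτ⟩ : GF 𝒜 u) * z⁻¹ = z⁻¹ * (⟨(γ.2, τ), hτ⟩ * s) := by
      rw [← h1]
      group
    obtain ⟨c, hc0, hc'⟩ := hs.1 β
    have hγc : IsUnitS 𝒜 (γ.2 c) := hc0.map hτ
    obtain ⟨d, hd, hcd, hdc⟩ := hγc.inv
    refine ⟨d, hd, fun r hr => ?_⟩
    have h4 : ((⟨(γ.2, τ), hτ⟩ : GF 𝒜 u) * z⁻¹).1.1 r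
        = (z⁻¹ * ((⟨(γ.2, τ), hτ⟩ : GF 𝒜 u) * s)).1.1 r := by rw [h2]
    have h5 : γ.2 (z⁻¹.1.1 r) = z⁻¹.1.1 (γ.2 (s.1.1 r)) := h4
    rw [h5, hc' r hr, map_mul, map_mul, hz'.1 _ hγc.1, ← mul_assoc, hdc, one_mul]
  exact
    { autS := isAutS_of z⁻¹.2 hz'.1
      left := fun γ hγ => ⟨γ, hγ, key γ hγ⟩
      right := fun γ hγ => ⟨γ, hγ, key γ hγ⟩
      overW := fun v => rfl
      fixes := fun i hi => hz'.2 i hi }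

/-- The automorphisms which come from the torus. -/
theorem autXS_of_norm {π : V →ₗ[ℂ] W} (hjr : LinearMap.range j = LinearMap.ker π) {ι : Type*}
    {Δ : EffDiv 𝒜 Γ ι} {f : V ≃ᵃ[ℂ] V} (hf : Normalizes Γ f) (hf2 : ∀ v, ∃ e, f v = v + j e)
    (hf3 : Δ.Fixed f) : IsAutXS u π Δ f 1 (AddEquiv.refl _) where
  autS := isAutS_of IsAutF.one fun _ _ => rfl
  left := fun γ hγ => ⟨_, (hf γ).1 hγ, fun v => by
    change f (γ.1 v) = f (γ.1 (f.symm (f v)))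
    rw [f.symm_apply_apply], fun β => ⟨1, IsUnitS.one, fun r _ => by
    rw [one_mul]
    rfl⟩⟩
  right := fun δ hδ => by
    have h0 : (f, (1 : R ≃ₐ[ℂ] R)) * ((f, 1)⁻¹ * δ * (f, 1)) * (f, 1)⁻¹ = δ := by group
    refine ⟨(f, 1)⁻¹ * δ * (f, 1), (hf _).2 (by rw [h0]; exact hδ), fun v => ?_,
      fun β => ⟨1, IsUnitS.one, fun r _ => ?_⟩⟩
    · change f (f.symm (δ.1 (f v))) = δ.1 (f v)
      rw [f.apply_symm_apply]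
    · rw [one_mul]
      rfl
  overW := fun v => by
    obtain ⟨e, he⟩ := hf2 v
    have h5 : π (j e) = 0 := by
      have h6 : j e ∈ LinearMap.ker π := hjr ▸ LinearMap.mem_range_self j e
      exact h6
    rw [he, map_add, h5, add_zero]
  fixes := fun i hi => by
    obtain ⟨h, hh, hh0, h1⟩ := hf3 i hi
    refine ⟨h, 1, hh, hh0, IsUnitS.one, fun v => ?_⟩
    rw [one_mul]
    exact h1 v

theorem invS_of_comm (hF : IsVarietyS 𝒜 u) (hQ : IsQuotient 𝒜 u Γ) {z : GF 𝒜 u}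
    (hc : ∀ q ∈ QF u 𝒜 Γ, ∃ s ∈ ScS 𝒜 u, z * q * z⁻¹ = q * s) {β : Cl ρ} (hβ : Inv 𝒜 Γ β) :
    Inv 𝒜 Γ (z⁻¹.1.2 β) ∧ Inv 𝒜 Γ (z⁻¹.1.2.symm β) := by
  have key : ∀ γ ∈ Γ, ∀ τ, IsAutF 𝒜 u γ.2 τ → ∀ x, z.1.2 (τ x) = τ (z.1.2 x) := by
    intro γ hγ τ hτ x
    obtain ⟨s, hs, h1⟩ := hc ⟨(γ.2, τ), hτ⟩ (mem_gal hγ)
    have h2 : z * (⟨(γ.2, τ), hτ⟩ : GF 𝒜 u) = (⟨(γ.2, τ), hτ⟩ * s) * z := by
      rw [← h1]
      group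
    have h4 : (z * (⟨(γ.2, τ), hτ⟩ : GF 𝒜 u)).1.2 x
        = (((⟨(γ.2, τ), hτ⟩ : GF 𝒜 u) * s) * z).1.2 x := by rw [h2]
    have h5 : z.1.2 (τ x) = τ (s.1.2 (z.1.2 x)) := h4
    have h6 : s.1.2 = 1 := hs.2
    rw [h5, h6]
    rfl
  constructor
  · intro γ hγ τ hτ
    obtain ⟨τ', hτ'⟩ := autS_of_mem hF hQ hγ
    have h1 := inducesS_eq hF hτ hτ'
    subst h1
    have h2 := key γ hγ τ hτ' (z.1.2.symm β)
    have h3 : z.1.2 (z.1.2.symm β) = β := z.1.2.apply_symm_apply β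
    rw [h3, hβ γ hγ τ hτ] at h2
    change τ (z.1.2.symm β) = z.1.2.symm β
    have h4 : z.1.2.symm (z.1.2 (τ (z.1.2.symm β))) = z.1.2.symm β := by rw [h2]
    rwa [z.1.2.symm_apply_apply] at h4
  · intro γ hγ τ hτ
    obtain ⟨τ', hτ'⟩ := autS_of_mem hF hQ hγ
    have h1 := inducesS_eq hF hτ hτ'
    subst h1
    have h2 := key γ hγ τ hτ' β
    rw [hβ γ hγ τ hτ] at h2
    exact h2.symm

theorem fibreS (hF : IsVarietyS 𝒜 u) (hX : IsQuotient 𝒜 u Γ)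
    (hproj : ∃ (L : Sheaf 𝒜 Γ) (H : V → V → ℂ), L.IsChern H ∧ IsPositiveForm H)
    (Γ' : AffGrp W) (π : V →ₗ[ℂ] W) (hπ : IsFibration (base Γ) Γ' π)
    (hj : Function.Injective j) (hjr : LinearMap.range j = LinearMap.ker π)
    {ι : Type*} [Fintype ι] (Δ : EffDiv 𝒜 Γ ι) (hΔ : NumTrivial Δ j)
    (hk : FiniteKernelS u Δ) (hc : ConeConjS u Δ)
    (𝒢 : LinGrp (N1 𝒜 Γ j)) (h𝒢 : IsAutGroupXS u π Δ 𝒢) : HasDomain u 𝒢 := by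
  classical
  obtain ⟨H₀, Rl⟩ := rel_emb hX hproj hπ hj hjr
  have hG := good_nefS (j := j) hF hX
  obtain ⟨ξ, Y, D⟩ := cdataS1 hF
  obtain ⟨T₀, hT₀, hcov₀⟩ := hc
  have : Finite (QF u 𝒜 Γ) := QFS_finite hF hX
  have : Fintype (QF u 𝒜 Γ) := Fintype.ofFinite _
  have hint0 : ∀ x : Fin ρ → ℝ, (∃ t : ℝ, 0 < t ∧ x - t • rv u ∈ nefCl 𝒜 u ∩ effCl 𝒜) →
      x ∈ nefCl 𝒜 u ∩ effCl 𝒜 := by
    rintro x ⟨t, ht, hx⟩
    have h1 := D.add _ hx _ (D.smul t ht.le _ D.y_N)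
    rwa [sub_add_cancel] at h1
  obtain ⟨T, hT1, hT2, hT3⟩ := descent D (Θ 𝒜 u) (fun g x hx => Θ_int g hx)
    (fun g x hx => ⟨Θ_nef g hx.1, Θ_eff g hx.2⟩) (HS u Δ) (QF u 𝒜 Γ) (ScS 𝒜 u)
    (fun q hq h hh => QFS_conj q h hq hh)
    (fun s hs => by
      ext1 b
      have h4 : s.1.2 = 1 := hs.2
      rw [Θ_apply, h4]
      exact act_refl b)
    (fun g s hs => ScS_conj g s hs) (kerS_finite hk) T₀
    (fun a ha => ⟨by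
      obtain ⟨⟨β, h1⟩, -⟩ := hT₀ a ha
      exact ⟨β, h1⟩, (hT₀ a ha).2⟩)
    (fun x hx => by
      obtain ⟨ψ, σ, hA, t, ht, hxt⟩ := hcov₀ x (hint0 x hx)
      refine ⟨(⟨(ψ, σ), hA.1.autF⟩ : GF 𝒜 u)⁻¹, (HS u Δ).inv_mem (HS_of_aut hA), ?_⟩
      rw [Θ_apply]
      change act σ.symm x ∈ _
      rw [hxt, act_symm']
      exact ht)
  obtain ⟨S, h1, h2, h3, -⟩ := coreD hF.base hX Rl hG Δ hΔ 𝒢 h𝒢.int h𝒢.nef_eff
    (fun f hf hf2 hf3 g hg => h𝒢.aut f 1 (AddEquiv.refl _)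
      (autXS_of_norm hjr hf hf2 hf3) g
      (fun x => ⟨(hg x).1, by rw [act_refl]; exact (hg x).2⟩))
    T
    (fun t ht => by
      obtain ⟨b, hb1, hb2, rfl⟩ := hT2 t ht
      exact nmS_good hF hX hb1 hb2)
    (fun b hb => by
      obtain ⟨t, ht, hb⟩ := hb
      have hbB : b ∈ Bs 𝒜 Γ := by
        have h4 := (Bs 𝒜 Γ).add_mem (KF_sub hG hb) ((Bs 𝒜 Γ).smul_mem t
          (Submodule.subset_span ⟨u, hX.inv, rfl⟩ : rv u ∈ Bs 𝒜 Γ))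
        rwa [sub_add_cancel] at h4
      have ht2 : 0 < t / 2 := by linarith
      obtain ⟨z, hz, hcomm, hzb⟩ := hT3 b ⟨t / 2, ht2, by
        have h4 := interiorS hF (KF_sub_nefCl hb) ht2
        have h5 : b - t • rv u + (t / 2) • rv u = b - (t / 2) • rv u := by
          module
        rw [h5] at h4
        exact ⟨subset_closure h4, semiS_eff hF h4⟩⟩ (fun q hq => fixed_of_Bs hbB hq)
      obtain ⟨g, hg⟩ := exists_pullS (j := j) hF hX hj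
        (σ := z⁻¹.1.2) (fun β hβ => (invS_of_comm hF hX hcomm hβ).1)
        (fun β hβ => (invS_of_comm hF hX hcomm hβ).2)
      refine ⟨g, h𝒢.aut 1 _ _ (autXS_of_comm hF hX π hz hcomm) g hg, fun a ha => ?_⟩
      have h5 := congrArg (act z⁻¹.1.2.symm) (hg a).2
      rw [act_symm', ha] at h5
      rw [h5]
      exact hzb)
    (fun b hb1 hb2 => by
      obtain ⟨ψ, σ, hA, t, ht, hbt⟩ := hcov₀ b ⟨KF_sub_nefCl hb1, effF_effCl hb2⟩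
      have hbB : b ∈ Bs 𝒜 Γ := KF_sub hG hb1
      have h4 : b ∈ cone (T₀.image (actL σ)) := by
        rw [hbt, ← actL_apply]
        exact cone_image (actL σ) ht
      refine ⟨_, fixed_mem_cone (Θ 𝒜 u) (QF u 𝒜 Γ) (fun q hq => fixed_of_Bs hbB hq) h4, ?_⟩
      intro c hc
      obtain ⟨c', hc', rfl⟩ := Finset.mem_image.1 hc
      obtain ⟨c'', hc'', rfl⟩ := Finset.mem_image.1 hc'
      obtain ⟨⟨β, h5⟩, h6⟩ := hT₀ c'' hc''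
      have h7 : (actL σ c'' : Fin ρ → ℝ) = Θ 𝒜 u ⟨(ψ, σ), hA.1.autF⟩ c'' := rfl
      rw [h7]
      exact nmS_good hF hX (Θ_int _ ⟨β, h5⟩) ⟨Θ_nef _ h6.1, Θ_eff _ h6.2⟩)
  exact ⟨S, h1, h2, h3⟩


theorem polyS (hF : IsVarietyS 𝒜 u) (hX : IsQuotient 𝒜 u Γ)
    (hproj : ∃ (L : Sheaf 𝒜 Γ) (H : V → V → ℂ), L.IsChern H ∧ IsPositiveForm H)
    (Γ' : AffGrp W) (π : V →ₗ[ℂ] W) (hπ : IsFibration (base Γ) Γ' π)
    (hj : Function.Injective j) (hjr : LinearMap.range j = LinearMap.ker π)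
    {ι : Type*} [Fintype ι] (Δ : EffDiv 𝒜 Γ ι) (hΔ : NumTrivial Δ j) (hp : PolyS 𝒜 u Γ)
    (𝒢 : LinGrp (N1 𝒜 Γ j)) (h𝒢 : IsAutGroupXS u π Δ 𝒢) : HasDomain u 𝒢 := by
  classical
  obtain ⟨H₀, Rl⟩ := rel_emb hX hproj hπ hj hjr
  have hG := good_nefS (j := j) hF hX
  obtain ⟨T, hT, hTi⟩ := hp
  have hTm : ∀ t ∈ T, (∃ β, Inv 𝒜 Γ β ∧ t = rv β) ∧ t ∈ KF (semiampleInv 𝒜 u Γ) ∧
      t ∈ effF 𝒜 Γ := by
    intro t ht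
    have h1 : t ∈ nefF 𝒜 u Γ ∩ effF 𝒜 Γ := by
      rw [hT]
      exact mem_cone_self ht
    exact ⟨hTi t ht, h1.1, h1.2⟩
  have hsub : ∀ b ∈ KF (semiampleInv 𝒜 u Γ), b ∈ effF 𝒜 Γ → b ∈ cone T := by
    intro b h1 h2
    rw [← hT]
    exact ⟨h1, h2⟩
  obtain ⟨S, h1, h2, h3, -⟩ := coreD hF.base hX Rl hG Δ hΔ 𝒢 h𝒢.int h𝒢.nef_eff
    (fun f hf hf2 hf3 g hg => h𝒢.aut f 1 (AddEquiv.refl _)
      (autXS_of_norm hjr hf hf2 hf3) g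
      (fun x => ⟨(hg x).1, by rw [act_refl]; exact (hg x).2⟩))
    T hTm
    (fun b hb => by
      obtain ⟨t, ht, hb⟩ := hb
      refine ⟨1, 𝒢.one_mem, fun a ha => ?_⟩
      have h4 := interior_hull hX.inv hG hb ht
      rw [sub_add_cancel] at h4
      change (val a).2 ∈ cone T
      rw [ha]
      refine hsub b (subset_closure h4) ?_
      have h5 : coneHull {b | ∃ β ∈ semiampleInv 𝒜 u Γ, b = rv β} ⊆ effF 𝒜 Γ := by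
        refine hull_le ?_
        rintro _ ⟨β, hβ, rfl⟩
        obtain ⟨m, hm, h6⟩ := hβ.2
        obtain ⟨p, hp⟩ := hF.point
        obtain ⟨r, hr, hr0⟩ := h6 p hp
        have hmr : (0 : ℝ) < m := by exact_mod_cast hm
        refine hull_scaled hmr ⟨m • β, hβ.1.nsmul m, ⟨r, hr, fun h => hr0 (by
          rw [h, map_zero])⟩, ?_⟩
        rw [← rv_nsmul]
        rfl
      exact h5 h4)
    (fun b hb1 hb2 => ⟨T, hsub b hb1 hb2, hTm⟩)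
  exact ⟨S, h1, h2, h3⟩

end Pool.Agent.W5h90.RD
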