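import Pool.Agent.W5h90.RD.ProdDefs
import Pool.Agent.W5h90.RD.Main
import Pool.Agent.W5h11.CQ.Fin2

/-!
# Fibre products: the cone conjecture for the factors implies the one for `F/S`
-/

set_option autoImplicit false
set_option linter.unusedSectionVars false

namespace Pool.Agent.W5h90.RD

open Pool.Agent.W4h4.NR
open Finset Filter Topology
open Pool.Agent.W594.SYZ2 Pool.Agent.W594.SYZ2.TQ Pool.Agent.TH735.AQ Pool.Agent.X324.CF
open Pool.Agent.Y167 (cone cone_add cone_smul cone_le cone_mono cone_sum mem_cone_self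
  zero_mem_cone cone_image cone_ind cone_of_scaled mem_cone_of_sum Rel Pol Cp CData IsFace AffGrp)
open Pool.Agent.W5h11 (CQ.lin_ext CQ.extH CQ.extH_rv CQ.Proj CQ.spanF CQ.FacCov CQ.Geo CQ.FacAut)

variable {V R : Type*} [NormedAddCommGroup V] [NormedSpace ℂ V] [FiniteDimensional ℂ V]
  [CommRing R] [IsDomain R] [Algebra ℂ R] {ρ m : ℕ}
  {𝒜 : Cl ρ → Submodule ℂ R} [GradedAlgebra 𝒜] {u : Cl ρ} {Γ : Grp V R} {ι : Type*}
  {Δ : EffDiv 𝒜 Γ ι} {pr : Fin m → Cl ρ →+ Cl ρ} {pf : Fin m → Cl ρ → Cl ρ}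

theorem IsProduct.proj (h : IsProduct 𝒜 fun i => ⇑(pr i)) : CQ.Proj pr :=
  ⟨fun β => funext fun l => (Finset.sum_apply l _ _).trans (h.sum β l),
    fun i k hik β => funext fun l => h.orth i k hik β l⟩

/-- The projections as homomorphisms. -/
def homs (h : IsProduct 𝒜 pf) (i : Fin m) : Cl ρ →+ Cl ρ := AddMonoidHom.mk' (pf i) (h.add i)

theorem homs_eq (h : IsProduct 𝒜 pf) : (fun i => ⇑(homs h i)) = pf := rfl

/-- The restriction of an effective class to a factor is effective. -/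
theorem prodS_eff (h : IsProduct 𝒜 fun i => ⇑(pr i)) (i : Fin m) {β : Cl ρ} (hβ : ∃ r ∈ 𝒜 β, r ≠ 0) :
    ∃ r ∈ 𝒜 (pr i β), r ≠ 0 := by
  obtain ⟨r, hr, hr0⟩ := hβ
  by_contra hcon
  push Not at hcon
  apply hr0
  have h1 := h.mul β r hr
  have h2 : Submodule.span ℂ {t : R | ∃ s : Fin m → R, (∀ i, s i ∈ 𝒜 (pr i β)) ∧ t = ∏ i, s i}
      ≤ ⊥ := by
    rw [Submodule.span_le]
    rintro t ⟨s, hs, rfl⟩
    change ∏ i, s i = 0
    exact Finset.prod_eq_zero (Finset.mem_univ i) (hcon _ (hs i))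
  exact h2 h1

/-- The restriction of a semiample class to a factor is semiample. -/
theorem prodS_semi (h : IsProduct 𝒜 fun i => ⇑(pr i)) (i : Fin m) {β : Cl ρ} (hβ : SemiampleF 𝒜 u β) :
    SemiampleF 𝒜 u (pr i β) := by
  obtain ⟨k, hk, h1⟩ := hβ
  refine ⟨k, hk, fun p hp => ?_⟩
  obtain ⟨r, hr, hr0⟩ := h1 p hp
  by_contra hcon
  push Not at hcon
  apply hr0
  have h2 := h.mul _ r hr
  have h3 : Submodule.span ℂ
      {t : R | ∃ s : Fin m → R, (∀ i, s i ∈ 𝒜 (pr i (k • β))) ∧ t = ∏ i, s i}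
      ≤ LinearMap.ker p.toLinearMap := by
    rw [Submodule.span_le]
    rintro t ⟨s, hs, rfl⟩
    change p (∏ i, s i) = 0
    rw [map_prod]
    refine Finset.prod_eq_zero (Finset.mem_univ i) (hcon _ ?_)
    have h4 := hs i
    rwa [map_nsmul] at h4
  exact h3 h2

theorem facCone_mem (h : IsProduct 𝒜 fun i => ⇑(pr i)) (i : Fin m) {b : Fin ρ → ℝ}
    (hb : b ∈ nefCl 𝒜 u ∩ effCl 𝒜) : CQ.extH (pr i) b ∈ nefEffFac 𝒜 u (pr i) := by
  constructor
  · have hc : Continuous (CQ.extH (pr i)) := LinearMap.continuous_of_finiteDimensional _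
    refine map_mem_closure hc hb.1 fun b hb => ?_
    refine hull_ind (p := fun b => CQ.extH (pr i) b ∈
      coneHull {b | ∃ β, SemiampleF 𝒜 u (pr i β) ∧ b = vec (pr i β)}) ?_ ?_ ?_ ?_ hb
    · rw [map_zero]; exact hull_zero
    · intro x y hx hy
      rw [map_add]
      exact hull_add hx hy
    · intro t x ht hx
      rw [map_smul]
      exact hull_smul ht hx
    · rintro _ ⟨β, hβ, rfl⟩
      have h1 : CQ.extH (pr i) (vec β) = vec (pr i β) := CQ.extH_rv _ _
      rw [h1]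
      exact hull_mem ⟨β, prodS_semi h i hβ, rfl⟩
  · refine hull_ind (p := fun b => CQ.extH (pr i) b ∈
      coneHull {b | ∃ β, (∃ r ∈ 𝒜 (pr i β), r ≠ 0) ∧ b = vec (pr i β)}) ?_ ?_ ?_ ?_ hb.2
    · rw [map_zero]; exact hull_zero
    · intro x y hx hy
      rw [map_add]
      exact hull_add hx hy
    · intro t x ht hx
      rw [map_smul]
      exact hull_smul ht hx
    · rintro _ ⟨β, hβ, rfl⟩
      have h1 : CQ.extH (pr i) (vec β) = vec (pr i β) := CQ.extH_rv _ _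
      rw [h1]
      exact hull_mem ⟨β, prodS_eff h i hβ, rfl⟩

theorem facCone_sub (p : Cl ρ →+ Cl ρ) {b : Fin ρ → ℝ} (hb : b ∈ nefEffFac 𝒜 u p) :
    b ∈ nefCl 𝒜 u ∩ effCl 𝒜 := by
  obtain ⟨h1, h2⟩ := hb
  constructor
  · refine closure_mono (hull_le ?_) h1
    rintro _ ⟨β, hβ, rfl⟩
    exact hull_mem ⟨_, hβ, rfl⟩
  · refine hull_le ?_ h2
    rintro _ ⟨β, hβ, rfl⟩
    exact hull_mem ⟨_, hβ, rfl⟩

/-- The classes of a factor are fixed by the projection. -/
theorem facCone_fix (h : IsProduct 𝒜 fun i => ⇑(pr i)) (i : Fin m) {b : Fin ρ → ℝ}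
    (hb : b ∈ nefEffFac 𝒜 u (pr i)) : CQ.extH (pr i) b = b := by
  refine hull_ind (p := fun b => CQ.extH (pr i) b = b) ?_ ?_ ?_ ?_ hb.2
  · exact map_zero _
  · intro x y hx hy
    rw [map_add, hx, hy]
  · intro t x _ hx
    rw [map_smul, hx]
  · rintro _ ⟨β, -, rfl⟩
    have h1 : CQ.extH (pr i) (vec (pr i β)) = vec (pr i (pr i β)) := CQ.extH_rv _ _
    rw [h1, h.proj.idem]

theorem act_other (h : IsProduct 𝒜 fun i => ⇑(pr i)) {i k : Fin m} (hik : k ≠ i) {ψ : R ≃ₐ[ℂ] R}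
    {σ : Cl ρ ≃+ Cl ρ} (hA : IsFactorAut u Δ (pr k) ψ σ) (x : Fin ρ → ℝ) :
    act σ (CQ.extH (pr i) x) = CQ.extH (pr i) x := by
  have h1 : actL σ ∘ₗ CQ.extH (pr i) = CQ.extH (pr i) := CQ.lin_ext fun β => by
    rw [LinearMap.comp_apply, CQ.extH_rv, actL_apply, act_rv, hA.other _ fun l => h.orth k i hik β l]
  exact LinearMap.congr_fun h1 x

theorem act_self {p : Cl ρ →+ Cl ρ} {ψ : R ≃ₐ[ℂ] R}
    {σ : Cl ρ ≃+ Cl ρ} (hA : IsFactorAut u Δ p ψ σ) (x : Fin ρ → ℝ) :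
    CQ.extH p (act σ (CQ.extH p x)) = act σ (CQ.extH p x) := by
  have h1 : CQ.extH p ∘ₗ actL σ ∘ₗ CQ.extH p = actL σ ∘ₗ CQ.extH p := CQ.lin_ext fun β => by
    rw [LinearMap.comp_apply, LinearMap.comp_apply, CQ.extH_rv, actL_apply, act_rv, CQ.extH_rv,
      hA.self β _ rfl]
  exact LinearMap.congr_fun h1 x

/-- The product of automorphisms of the factors. -/
theorem facS_prod (h : IsProduct 𝒜 fun i => ⇑(pr i)) (q : Fin m → GF 𝒜 u)
    (hq : ∀ i, IsFactorAut u Δ (pr i) (q i).1.1 (q i).1.2) :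
    ∃ g ∈ HS u Δ, ∀ i x, act g.1.2 (CQ.extH (pr i) x) = act (q i).1.2 (CQ.extH (pr i) x) := by
  classical
  have key : ∀ s : Finset (Fin m), ∃ g ∈ HS u Δ, ∀ i x, act g.1.2 (CQ.extH (pr i) x)
      = if i ∈ s then act (q i).1.2 (CQ.extH (pr i) x) else CQ.extH (pr i) x := by
    intro s
    induction s using Finset.induction_on with
    | empty =>
      refine ⟨1, (HS u Δ).one_mem, fun i x => ?_⟩
      rw [if_neg (Finset.notMem_empty i)]
      exact act_refl _
    | insert k s hk ih =>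
      obtain ⟨g, hgH, hg⟩ := ih
      refine ⟨q k * g, (HS u Δ).mul_mem (HS_of_aut (hq k).aut) hgH, fun i x => ?_⟩
      have h1 : act (q k * g).1.2 (CQ.extH (pr i) x)
          = act (q k).1.2 (act g.1.2 (CQ.extH (pr i) x)) := (act_comp _ _ _).symm
      rw [h1, hg]
      by_cases hik : i = k
      · subst hik
        rw [if_neg hk, if_pos (Finset.mem_insert_self _ _)]
      · by_cases his : i ∈ s
        · rw [if_pos his, if_pos (Finset.mem_insert_of_mem his), ← act_self (hq i) x,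
            act_other h (fun h => hik h.symm) (hq k)]
        · rw [if_neg his, if_neg (fun h => (Finset.mem_insert.1 h).elim hik his),
            act_other h (fun h => hik h.symm) (hq k)]
  obtain ⟨g, hgH, hg⟩ := key Finset.univ
  exact ⟨g, hgH, fun i x => by rw [hg, if_pos (Finset.mem_univ _)]⟩

/-- **Products.** The cone conjecture for the factors implies the one for `F/S`. -/
theorem coneS_prod (h' : IsProduct 𝒜 pf) (hfac' : ∀ i, FactorConj u Δ (pf i)) :
    ConeConjS u Δ := by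
  classical
  obtain ⟨pr, rfl⟩ : ∃ pr : Fin m → Cl ρ →+ Cl ρ, pf = fun i => ⇑(pr i) := ⟨homs h', rfl⟩
  have h : IsProduct 𝒜 fun i => ⇑(pr i) := h'
  have hfac : ∀ i, FactorConj u Δ (pr i) := hfac'
  choose T hT hT2 using hfac
  refine ⟨Finset.univ.biUnion T, fun t ht => ?_, fun b hb => ?_⟩
  · obtain ⟨i, -, h1⟩ := Finset.mem_biUnion.1 ht
    exact ⟨(hT i t h1).1, facCone_sub _ (hT i t h1).2⟩
  · have h1 : ∀ i, ∃ (q : GF 𝒜 u) (t : Fin ρ → ℝ), IsFactorAut u Δ (pr i) q.1.1 q.1.2 ∧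
        t ∈ cone (T i) ∧ CQ.extH (pr i) b = act q.1.2 t := by
      intro i
      obtain ⟨ψ, σ, hA, t, ht, e⟩ := hT2 i _ (facCone_mem h i hb)
      exact ⟨⟨(ψ, σ), hA.aut.1.autF⟩, t, hA, ht, e⟩
    choose q t hq ht e using h1
    obtain ⟨g, hgH, hg⟩ := facS_prod h q hq
    refine ⟨g.1.1, g.1.2, aut_of_HS hgH, ∑ i, t i, ?_, ?_⟩
    · refine cone_sum _ _ fun i _ => ?_
      exact cone_mono (Finset.subset_biUnion_of_mem T (Finset.mem_univ i)) (ht i)
    · have h2 : ∀ i, t i = CQ.extH (pr i) (t i) := by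
        intro i
        refine (cone_ind (p := fun x => CQ.extH (pr i) x = x) ?_ ?_ ?_ ?_ (ht i)).symm
        · exact map_zero _
        · intro x y hx hy
          rw [map_add, hx, hy]
        · intro c x _ hx
          rw [map_smul, hx]
        · intro x hx
          exact facCone_fix h i (hT i x hx).2
      rw [← actL_apply, map_sum, ← h.proj.sumR b]
      refine Finset.sum_congr rfl fun i _ => ?_
      rw [actL_apply, e i, h2 i, hg i]

end Pool.Agent.W5h90.RD
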