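import Pool.Agent.W5h90.RD.Defs

/-!
# Fibre products over an affine variety: definitions
-/

set_option autoImplicit false

namespace Pool.Agent.W5h90.RD

open Pool.Agent.X324.CF Pool.Agent.W4h4.NR
open Pool.Agent.Y167 (cone)

section

variable {R : Type*} [CommRing R] [Algebra ℂ R] {ρ : ℕ} (𝒜 : Cl ρ → Submodule ℂ R)

/-- `F` is the fibre product over `S` of varieties `F i`, and `Cl(F)` is the direct sum of the groups
`Cl(F i)`, where `pr i` is the projection to `Cl(F i)`: the sections of `O_F(β)` are sums of products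
of sections of the sheaves `O_F(pr i β)`, which are the pullbacks of sheaves on the factors (Künneth
formula over the affine variety `S`). For one factor, `pr i` is the identity. -/
structure IsProduct {m : ℕ} (pr : Fin m → Cl ρ → Cl ρ) : Prop where
  add : ∀ i β β', pr i (β + β') = pr i β + pr i β'
  sum : ∀ β l, ∑ i, pr i β l = β l
  orth : ∀ i k, i ≠ k → ∀ β l, pr i (pr k β) l = 0
  mul : ∀ β, ∀ r ∈ 𝒜 β, r ∈ Submodule.span ℂ
    {t | ∃ s : Fin m → R, (∀ i, s i ∈ 𝒜 (pr i β)) ∧ t = ∏ i, s i}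

/-- The cone `A^e(F i / S) = Nef(F i / S) ∩ Eff(F i / S)` of the factor with the projection
`p : Cl(F) → Cl(F i)`: the intersection of the closure of the cone spanned by the semiample classes in
`Cl(F i)` and the cone spanned by the classes of effective divisors in `Cl(F i)`. -/
def nefEffFac (u : Cl ρ) (p : Cl ρ → Cl ρ) : Set (Fin ρ → ℝ) :=
  closure (coneHull {b | ∃ β, SemiampleF 𝒜 u (p β) ∧ b = vec (p β)}) ∩
    coneHull {b | ∃ β, (∃ r ∈ 𝒜 (p β), r ≠ 0) ∧ b = vec (p β)}

end

section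

variable {V R : Type*} [NormedAddCommGroup V] [NormedSpace ℂ V] [CommRing R] [Algebra ℂ R] {ρ : ℕ}
  {𝒜 : Cl ρ → Submodule ℂ R} {Γ : Grp V R} {ι : Type*}

/-- `ψ` defines an automorphism of `F` over `S` which preserves `Δ` and acts by `σ` on `Cl(F)`; `σ`
preserves `Cl(F i)` and is the identity on the class groups of the other factors. (The automorphisms
of `F i` over `S`, extended by the identity of the other factors, have these properties if they
preserve `Δ`.) -/
structure IsFactorAut (u : Cl ρ) (Δ : EffDiv 𝒜 Γ ι) (p : Cl ρ → Cl ρ) (ψ : R ≃ₐ[ℂ] R)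
    (σ : Cl ρ ≃+ Cl ρ) : Prop where
  aut : IsAutSD u Δ ψ σ
  self : ∀ β β', σ (p β) = β' → p β' = β'
  other : ∀ β, (∀ l, p β l = 0) → σ β = β

/-- The relative cone conjecture for the factor `F i / S`, in the form of a covering: the cone
`A^e(F i / S)` is covered by the translates of the rational polyhedral cone spanned by finitely many
integral classes in it, under the automorphisms of `F i` over `S` which preserve `Δ`. -/
def FactorConj (u : Cl ρ) (Δ : EffDiv 𝒜 Γ ι) (p : Cl ρ → Cl ρ) : Prop :=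
  ∃ T : Finset (Fin ρ → ℝ), (∀ t ∈ T, (∃ β : Cl ρ, t = vec β) ∧ t ∈ nefEffFac 𝒜 u p) ∧
    ∀ b ∈ nefEffFac 𝒜 u p, ∃ ψ σ, IsFactorAut u Δ p ψ σ ∧ ∃ t ∈ cone T, b = act σ t

/-- The group `Cl(F i)` has rank one (the case `p β₁ = 0`); or it has rank two and some automorphism of
`F i` over `S` which preserves `Δ` acts on it by a map whose square is not the identity. -/
def FactorSmall (u : Cl ρ) (Δ : EffDiv 𝒜 Γ ι) (p : Cl ρ → Cl ρ) : Prop :=
  ∃ β₁, (∀ β, ∃ a b c : ℤ, a ≠ 0 ∧ ∀ l, a * p β l = b * p u l + c * p β₁ l) ∧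
    ((∀ l, p β₁ l = 0) ∨ ∃ ψ σ β, IsFactorAut u Δ p ψ σ ∧ σ (σ (p β)) ≠ p β)

end

end Pool.Agent.W5h90.RD
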