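import Pool.Agent.W5h90.RD.Main
import Pool.Agent.W4h4.NR.RankTwo

/-!
# The relative cone conjecture for `F/S` of Picard number two with infinitely many automorphisms
-/

set_option autoImplicit false
set_option linter.unusedSectionVars false

namespace Pool.Agent.W5h90.RD

open Pool.Agent.W4h4.NR
open Finset Filter Topology
open Pool.Agent.W594.SYZ2 Pool.Agent.W594.SYZ2.TQ Pool.Agent.TH735.AQ Pool.Agent.X324.CF
open Pool.Agent.Y167 (cone cone_add cone_smul cone_le cone_mono cone_sum mem_cone_self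
  zero_mem_cone cone_image cone_ind cone_of_scaled mem_cone_of_sum Rel Pol Cp CData IsFace AffGrp)
open Pool.Agent.W5h11.CQ (TwoForms two_forms two_square two_hyp two_cover two_eff two_int)

variable {V R : Type*} [NormedAddCommGroup V] [NormedSpace ℂ V] [FiniteDimensional ℂ V]
  [CommRing R] [IsDomain R] [Algebra ℂ R]
  {𝒜 : Cl 2 → Submodule ℂ R} [GradedAlgebra 𝒜] {u : Cl 2} {Γ : Grp V R}

theorem coneS_two (hF' : IsVarietyS 𝒜 u) (hP : PseffPointed 𝒜) {ι : Type*} {Δ : EffDiv 𝒜 Γ ι}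
    (h : ∃ ψ σ β, IsAutSD u Δ ψ σ ∧ σ (σ β) ≠ β) : ConeConjS u Δ := by
  classical
  have hF : IsVariety 𝒜 u := ⟨hF'.point, hF'.sections, hF'.ample, hP⟩
  obtain ⟨ψ, σ, β, hA, hne⟩ := h
  obtain ⟨ξ, Y, D, hξ⟩ := cdata0 hF
  obtain ⟨z₀, hspan, hz⟩ := two_hspan D
  obtain ⟨a, b, v₁, v₂, TF⟩ := two_forms D hspan hz (fun p q =>
    (isClosed_closure (s := coneHull (semi 𝒜 u))).preimage (by fun_prop :
      Continuous fun t : ℝ => p + t • q))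
  let g₀ : GF 𝒜 u := ⟨(ψ, σ), hA.1.autF⟩
  have hg₀ : g₀ ∈ HS u Δ := HS_of_aut hA
  have hsymm : ∀ (k : GF 𝒜 u) (x : Fin 2 → ℝ), (Θ 𝒜 u k).symm x = Θ 𝒜 u k⁻¹ x := by
    intro k x
    rw [map_inv]
    rfl
  obtain ⟨l, m, hl, hm, ha, hb⟩ := two_square TF (g := Θ 𝒜 u g₀) (fun x hx => Θ_nef g₀ hx)
    (fun x hx => by rw [hsymm]; exact Θ_nef _ hx)
  set k : GF 𝒜 u := g₀ * g₀ with hk
  set h := Θ 𝒜 u k with hh
  have hh' : ∀ x, h x = Θ 𝒜 u g₀ (Θ 𝒜 u g₀ x) := by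
    intro x
    rw [hh, hk, map_mul]
    rfl
  have hh1 : h ≠ 1 := by
    intro h1
    apply hne
    apply rv_inj
    rw [← act_rv, ← act_rv]
    have h2 := hh' (rv β)
    rw [h1] at h2
    exact h2.symm
  have hkH : k ∈ HS u Δ := (HS u Δ).mul_mem hg₀ hg₀
  have hL : ∀ x ∈ intCl 2, h x ∈ intCl 2 := fun x hx => Θ_int k hx
  have hL' : ∀ x ∈ intCl 2, h.symm x ∈ intCl 2 := fun x hx => by
    rw [hh, hsymm]
    exact Θ_int _ hx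
  have hPL : {b : Fin 2 → ℝ | ∃ β : Cl 2, (∃ r ∈ 𝒜 β, r ≠ 0) ∧ b = vec β} ⊆ (intCl 2 : Set _) := by
    rintro _ ⟨β, -, rfl⟩
    exact ⟨β, rfl⟩
  have hpow : ∀ n : ℤ, h ^ n = Θ 𝒜 u (k ^ n) := fun n => by rw [hh, map_zpow]
  have hP : ∀ e ∈ {b : Fin 2 → ℝ | ∃ β : Cl 2, (∃ r ∈ 𝒜 β, r ≠ 0) ∧ b = vec β}, ∀ n : ℤ,
      0 ≤ ξ ((h ^ n) e) := by
    intro e he n
    refine hξ _ ?_
    rw [hpow]
    exact subset_closure (Θ_eff (k ^ n) (hull_mem he))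
  have ha' : ∀ x, a (h x) = l * a x := fun x => by rw [hh']; exact ha x
  have hb' : ∀ x, b (h x) = m * b x := fun x => by rw [hh']; exact hb x
  have hcov : ∀ x ∈ effCl 𝒜, ∃ n : ℤ, (h ^ n) x ∈ cone {rv u, h (rv u)} := by
    intro x hx
    rcases two_hyp D TF hL hL' hl hm ha' hb' hh1 with ⟨h1, h2⟩ | ⟨h1, h2⟩
    · exact two_pts D TF hL hL' hm h1 h2 ha' hb' hPL hP hx
    · exact two_pts D TF.swap hL hL' hl h2 h1 hb' ha' hPL hP hx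
  have hu : rv u ∈ nefCl 𝒜 u ∩ effCl 𝒜 := ⟨subset_closure (semi_u hF), semi_eff hF (semi_u hF)⟩
  refine ⟨{rv u, h (rv u)}, fun t ht => ?_, fun x hx => ?_⟩
  · rw [Finset.mem_insert, Finset.mem_singleton] at ht
    rcases ht with rfl | rfl
    · exact ⟨⟨u, rfl⟩, hu⟩
    · exact ⟨hL _ ⟨u, rfl⟩, Θ_nef k hu.1, Θ_eff k hu.2⟩
  · obtain ⟨n, hn⟩ := hcov x hx.2
    have hmem : (k ^ n)⁻¹ ∈ HS u Δ := (HS u Δ).inv_mem ((HS u Δ).zpow_mem hkH n)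
    refine ⟨(k ^ n)⁻¹.1.1, (k ^ n)⁻¹.1.2, aut_of_HS hmem, (h ^ n) x, hn, ?_⟩
    have h1 : x = Θ 𝒜 u (k ^ n)⁻¹ (Θ 𝒜 u (k ^ n) x) := by
      change _ = (Θ 𝒜 u (k ^ n)⁻¹ * Θ 𝒜 u (k ^ n)) x
      rw [← map_mul, inv_mul_cancel, map_one]
      rfl
    rw [hpow]
    exact h1


end Pool.Agent.W5h90.RD
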